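import Pool.Agent.Run7.h788.OM.BrDefs
import Pool.Agent.H38R2.CG.KR

/-!
# The Kronecker symbol of a fundamental discriminant is a primitive quadratic character
-/

set_option autoImplicit false

open NumberTheorySymbols

namespace Run7.h788.OM

/-- a criterion for primitivity -/
lemma prim_of {N : ℕ} [NeZero N] {χ : DirichletCharacter ℂ N}
    (h : ∀ l : ℕ, l.Prime → l ∣ N → ∃ n : ℕ, n ≡ 1 [MOD (N / l)] ∧ n.Coprime N ∧ χ n ≠ 1) :
    χ.IsPrimitive := by
  rw [DirichletCharacter.isPrimitive_def]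
  by_contra hne
  obtain ⟨hd, χ₀, hχ⟩ := DirichletCharacter.factorsThrough_conductor χ
  obtain ⟨k, hk⟩ := id hd
  have hN : N ≠ 0 := NeZero.ne N
  have hk1 : k ≠ 1 := by rintro rfl; apply hne; omega
  obtain ⟨l, hl, hlk⟩ := Nat.exists_prime_and_dvd hk1
  obtain ⟨k', rfl⟩ := hlk
  obtain ⟨n, hn1, hn2, hn3⟩ := h l hl ⟨χ.conductor * k', by linarith⟩
  apply hn3
  have hNl : N / l = χ.conductor * k' := by
    have e0 : N = l * (χ.conductor * k') := by linarith
    conv_lhs => rw [e0]
    exact Nat.mul_div_cancel_left _ hl.pos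
  rw [hNl] at hn1
  have hn4 : n ≡ 1 [MOD χ.conductor] := Nat.ModEq.of_mul_right _ hn1
  set u := ZMod.unitOfCoprime n hn2 with hu
  have h1 : (n : ZMod N) = (u : ZMod N) := by rw [hu, ZMod.coe_unitOfCoprime]
  have h2 : χ (u : ZMod N) = χ₀ ((u : ZMod N).cast : ZMod χ.conductor) :=
    (DFunLike.congr_fun hχ _).trans (DirichletCharacter.changeLevel_eq_cast_of_dvd χ₀ hd u)
  rw [h1, h2, ← h1, ZMod.cast_natCast hd]
  have h3 : (n : ZMod χ.conductor) = 1 := by
    have := (ZMod.natCast_eq_natCast_iff n 1 _).mpr hn4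
    simpa using this
  rw [h3, map_one]

/-- the even part: moduli and characters -/
def rr : Fin 4 → ℕ := ![1, 4, 8, 8]

def ps (e : Fin 4) (n : ℕ) : ℤ :=
  match e with
  | 0 => 1
  | 1 => ZMod.χ₄ n
  | 2 => ZMod.χ₈ n
  | 3 => ZMod.χ₈' n

lemma ps_mul (e : Fin 4) (a b : ℕ) : ps e (a * b) = ps e a * ps e b := by
  fin_cases e
  · simp [ps]
  · change ZMod.χ₄ ((a * b : ℕ) : ZMod 4) = ZMod.χ₄ (a : ZMod 4) * ZMod.χ₄ (b : ZMod 4)
    rw [Nat.cast_mul, map_mul]
  · change ZMod.χ₈ ((a * b : ℕ) : ZMod 8) = ZMod.χ₈ (a : ZMod 8) * ZMod.χ₈ (b : ZMod 8)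
    rw [Nat.cast_mul, map_mul]
  · change ZMod.χ₈' ((a * b : ℕ) : ZMod 8) = ZMod.χ₈' (a : ZMod 8) * ZMod.χ₈' (b : ZMod 8)
    rw [Nat.cast_mul, map_mul]

lemma ps_one (e : Fin 4) : ps e 1 = 1 := by
  fin_cases e <;> simp [ps]

lemma ps_congr (e : Fin 4) {a b : ℕ} (h : a ≡ b [MOD rr e]) : ps e a = ps e b := by
  fin_cases e
  · rfl
  · have := (ZMod.natCast_eq_natCast_iff a b 4).mpr h
    simp [ps, this]
  · have := (ZMod.natCast_eq_natCast_iff a b 8).mpr h
    simp [ps, this]
  · have := (ZMod.natCast_eq_natCast_iff a b 8).mpr h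
    simp [ps, this]

lemma ps_zero (e : Fin 4) {a : ℕ} (h : ¬ a.Coprime (rr e)) : ps e a = 0 := by
  fin_cases e
  · exact absurd (Nat.coprime_one_right a) h
  · apply MulChar.map_nonunit; rwa [ZMod.isUnit_iff_coprime]
  · apply MulChar.map_nonunit; rwa [ZMod.isUnit_iff_coprime]
  · apply MulChar.map_nonunit; rwa [ZMod.isUnit_iff_coprime]

lemma ps_sq (e : Fin 4) {a : ℕ} (h : a.Coprime (rr e)) : ps e a * ps e a = 1 := by
  fin_cases e
  · rfl
  · have h1 := ZMod.isQuadratic_χ₄ (a : ZMod 4)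
    have h2 : ZMod.χ₄ (a : ZMod 4) ≠ 0 := by
      have hu : IsUnit (a : ZMod 4) := by rw [ZMod.isUnit_iff_coprime]; exact h
      exact (hu.map ZMod.χ₄).ne_zero
    simp only [ps]
    rcases h1 with h1 | h1 | h1
    · exact absurd h1 h2
    · rw [h1]; rfl
    · rw [h1]; rfl
  · have h1 := ZMod.isQuadratic_χ₈ (a : ZMod 8)
    have h2 : ZMod.χ₈ (a : ZMod 8) ≠ 0 := by
      have hu : IsUnit (a : ZMod 8) := by rw [ZMod.isUnit_iff_coprime]; exact h
      exact (hu.map ZMod.χ₈).ne_zero
    simp only [ps]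
    rcases h1 with h1 | h1 | h1
    · exact absurd h1 h2
    · rw [h1]; rfl
    · rw [h1]; rfl
  · have h1 := ZMod.isQuadratic_χ₈' (a : ZMod 8)
    have h2 : ZMod.χ₈' (a : ZMod 8) ≠ 0 := by
      have hu : IsUnit (a : ZMod 8) := by rw [ZMod.isUnit_iff_coprime]; exact h
      exact (hu.map ZMod.χ₈').ne_zero
    simp only [ps]
    rcases h1 with h1 | h1 | h1
    · exact absurd h1 h2
    · rw [h1]; rfl
    · rw [h1]; rfl

/-- The primitive characters. -/
theorem exists_ps {m : ℕ} (e : Fin 4) (hm : Odd m) (hs : Squarefree m) (h1 : rr e * m ≠ 1) :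
    ∃ χ : DirichletCharacter ℂ (rr e * m), χ.IsPrimitive ∧ χ ^ 2 = 1 ∧ χ ≠ 1 ∧
      ∀ n : ℕ, χ n = ((ps e n * jacobiSym n m : ℤ) : ℂ) := by
  have hm0 : m ≠ 0 := by rintro rfl; simp at hm
  have hr0 : rr e ≠ 0 := by fin_cases e <;> simp [rr]
  have hN0 : rr e * m ≠ 0 := mul_ne_zero hr0 hm0
  have : NeZero (rr e * m) := ⟨hN0⟩
  have : NeZero m := ⟨hm0⟩
  have hcop : Nat.Coprime (rr e) m := by
    fin_cases e
    · exact Nat.coprime_one_left m
    · exact Nat.Coprime.pow_left 2 (Nat.coprime_two_left.mpr hm)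
    · exact Nat.Coprime.pow_left 3 (Nat.coprime_two_left.mpr hm)
    · exact Nat.Coprime.pow_left 3 (Nat.coprime_two_left.mpr hm)
  have jcong : ∀ {a b : ℕ}, a ≡ b [MOD m] → jacobiSym a m = jacobiSym b m := by
    intro a b hab
    apply jacobiSym.mod_left'
    exact_mod_cast hab
  obtain ⟨χ, hχ⟩ := Pool.Agent.H38R2.CG.KRh.exists_char (D := rr e * m) (by omega)
    (fun n => ps e n * jacobiSym n m) (by simp [ps_one]) (fun a b => by
      simp only [ps_mul]; push_cast; rw [jacobiSym.mul_left]; ring)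
    (fun a => by
      rw [ps_congr e (a := a % (rr e * m)) (b := a) (Nat.ModEq.of_mul_right _ (Nat.mod_modEq a (rr e * m))),
        jcong (a := a % (rr e * m)) (b := a) (Nat.ModEq.of_mul_left _ (Nat.mod_modEq a (rr e * m)))])
    (fun a ha => by
      by_cases h2 : a.Coprime (rr e)
      · have h3 : ¬ a.Coprime m := fun h3 => ha (Nat.Coprime.mul_right h2 h3)
        have : jacobiSym a m = 0 := by
          rw [jacobiSym.eq_zero_iff_not_coprime]; simpa using h3
        rw [this, mul_zero]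
      · rw [ps_zero e h2, zero_mul])
  -- nontrivial values
  have hval : ∀ n : ℕ, ps e n * jacobiSym n m = -1 → χ n ≠ 1 := by
    intro n hn h2
    rw [hχ n, hn] at h2
    norm_num at h2
  have hcopv : ∀ n : ℕ, ps e n * jacobiSym n m = -1 → n.Coprime (rr e * m) := by
    intro n hn
    refine Nat.Coprime.mul_right ?_ ?_
    · by_contra h2; rw [ps_zero e h2, zero_mul] at hn; norm_num at hn
    · by_contra h2
      have : jacobiSym n m = 0 := by
        rw [jacobiSym.eq_zero_iff_not_coprime]; simpa using h2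
      rw [this, mul_zero] at hn; norm_num at hn
  have hkey : ∀ l : ℕ, l.Prime → l ∣ rr e * m →
      ∃ n : ℕ, n ≡ 1 [MOD (rr e * m / l)] ∧ ps e n * jacobiSym n m = -1 := by
    intro l hl hlN
    rcases (Nat.Prime.dvd_mul hl).mp hlN with hlr | hlm
    · -- l = 2
      have hl2 : l = 2 := by
        have h2 : l ∣ 2 ^ 3 := by
          refine hlr.trans ?_
          fin_cases e <;> decide
        exact (Nat.prime_dvd_prime_iff_eq hl Nat.prime_two).mp (hl.dvd_of_dvd_pow h2)
      subst hl2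
      -- b
      obtain ⟨b, hb1, hb2⟩ : ∃ b : ℕ, b ≡ 1 [MOD (rr e / 2)] ∧ ps e b = -1 := by
        fin_cases e
        · exfalso; revert hlr; decide
        · exact ⟨3, by decide, by decide⟩
        · exact ⟨5, by decide, by decide⟩
        · exact ⟨5, by decide, by decide⟩
      obtain ⟨n, hn1, hn2⟩ := Nat.chineseRemainder hcop b 1
      refine ⟨n, ?_, ?_⟩
      · have e1 : rr e * m / 2 = rr e / 2 * m := by
          obtain ⟨t, ht⟩ := hlr
          rw [ht, mul_assoc, Nat.mul_div_cancel_left _ (by norm_num), Nat.mul_div_cancel_left _ (by norm_num)]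
        rw [e1]
        have hc2 : Nat.Coprime (rr e / 2) m := Nat.Coprime.coprime_dvd_left (Nat.div_dvd_of_dvd hlr) hcop
        rw [← Nat.modEq_and_modEq_iff_modEq_mul hc2]
        exact ⟨(Nat.ModEq.of_dvd (Nat.div_dvd_of_dvd hlr) hn1).trans hb1, hn2⟩
      · rw [ps_congr e hn1, hb2, jcong hn2]; simp
    · have hlo : Odd l := by
        rcases hl.eq_two_or_odd' with h2 | h2
        · subst h2; obtain ⟨t, ht⟩ := hlm; rw [Nat.odd_iff] at hm; omega
        · exact h2
      obtain ⟨m', rfl⟩ := hlm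
      have : Fact l.Prime := ⟨hl⟩
      have hm'0 : m' ≠ 0 := by rintro rfl; simp at hm0
      have : NeZero m' := ⟨hm'0⟩
      have : NeZero l := ⟨hl.ne_zero⟩
      have hcl : Nat.Coprime l m' := (Nat.squarefree_mul_iff.1 hs).1
      have hcl2 : Nat.Coprime l (rr e * m') := by
        refine Nat.Coprime.mul_right ?_ hcl
        exact (Nat.Coprime.coprime_dvd_right (Dvd.intro _ rfl) hcop).symm
      obtain ⟨a, ha⟩ := FiniteField.exists_nonsquare (F := ZMod l) (by
        rw [ZMod.ringChar_zmod_n]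
        rintro rfl
        exact absurd hlo (by decide))
      obtain ⟨n, hn1, hn2⟩ := Nat.chineseRemainder hcl2 a.val 1
      refine ⟨n, ?_, ?_⟩
      · have e1 : rr e * (l * m') / l = rr e * m' := by
          rw [show rr e * (l * m') = l * (rr e * m') by ring, Nat.mul_div_cancel_left _ hl.pos]
        rw [e1]; exact hn2
      · have hn3 : n ≡ 1 [MOD rr e] := Nat.ModEq.of_mul_right _ hn2
        have hn4 : n ≡ 1 [MOD m'] := Nat.ModEq.of_mul_left _ hn2
        have f1 : jacobiSym n l = -1 := by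
          have h5 : ((n : ℤ)) % (l : ℤ) = (a.val : ℤ) % (l : ℤ) := by exact_mod_cast hn1
          rw [jacobiSym.mod_left' h5, ← jacobiSym.legendreSym.to_jacobiSym, legendreSym.eq_neg_one_iff]
          simpa using ha
        have f2 : jacobiSym n m' = 1 := by
          have h5 : ((n : ℤ)) % (m' : ℤ) = (1 : ℤ) % (m' : ℤ) := by exact_mod_cast hn4
          rw [jacobiSym.mod_left' h5, jacobiSym.one_left]
        rw [ps_congr e hn3, ps_one, jacobiSym.mul_right, f1, f2]; norm_num
  refine ⟨χ, ?_, ?_, ?_, hχ⟩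
  · apply prim_of
    intro l hl hlN
    obtain ⟨n, hn1, hn2⟩ := hkey l hl hlN
    exact ⟨n, hn1, hcopv n hn2, hval n hn2⟩
  · ext a
    rw [MulChar.pow_apply_coe, MulChar.one_apply a.isUnit]
    have h2 : (a : ZMod (rr e * m)) = (((a : ZMod (rr e * m)).val : ℕ) : ZMod (rr e * m)) := by
      rw [ZMod.natCast_zmod_val]
    set n := (a : ZMod (rr e * m)).val with hn
    have hnc : n.Coprime (rr e * m) := by
      rw [← ZMod.isUnit_iff_coprime, ← h2]; exact a.isUnit
    rw [h2, hχ n]
    have s1 := ps_sq e (Nat.Coprime.coprime_dvd_right (Dvd.intro _ rfl) hnc)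
    have s2 : jacobiSym n m * jacobiSym n m = 1 := by
      have : jacobiSym n m = 1 ∨ jacobiSym n m = -1 := by
        apply jacobiSym.eq_one_or_neg_one
        have : n.Coprime m := Nat.Coprime.coprime_dvd_right (Dvd.intro_left (rr e) rfl) hnc
        simpa using this
      rcases this with h | h <;> rw [h] <;> norm_num
    have s3 : (ps e n * jacobiSym n m) * (ps e n * jacobiSym n m) = 1 := by
      calc (ps e n * jacobiSym n m) * (ps e n * jacobiSym n m) = (ps e n * ps e n) * (jacobiSym n m * jacobiSym n m) := by ring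
        _ = 1 := by rw [s1, s2, one_mul]
    rw [sq, ← Int.cast_mul, s3, Int.cast_one]
  · intro h2
    obtain ⟨l, hl, hlN⟩ := Nat.exists_prime_and_dvd h1
    obtain ⟨n, hn1, hn2⟩ := hkey l hl hlN
    have h3 := hval n hn2
    apply h3
    rw [h2]
    apply MulChar.one_apply
    rw [ZMod.isUnit_iff_coprime]
    exact hcopv n hn2

/-- quadratic reciprocity, with signs -/
lemma qr {a : ℤ} (ha : a % 2 = 1) {p : ℕ} (hp : Odd p) :
    jacobiSym a p = (if a % 4 = 1 then 1 else ZMod.χ₄ p) * jacobiSym p a.natAbs := by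
  have h4 : ZMod.χ₄ p = if p % 4 = 1 then 1 else -1 := by
    rw [ZMod.χ₄_nat_eq_if_mod_four]
    have : p % 2 = 1 := Nat.odd_iff.mp hp
    rw [if_neg (by omega)]
  have hp2 : p % 2 = 1 := Nat.odd_iff.mp hp
  -- positive numbers
  have hpos : ∀ b : ℕ, b % 2 = 1 → jacobiSym b p = (if b % 4 = 1 then 1 else ZMod.χ₄ p) * jacobiSym p b := by
    intro b hb
    rcases (by omega : b % 4 = 1 ∨ b % 4 = 3) with h | h
    · rw [if_pos h, one_mul]
      exact jacobiSym.quadratic_reciprocity_one_mod_four h hp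
    · rw [if_neg (by omega), h4]
      rcases (by omega : p % 4 = 1 ∨ p % 4 = 3) with h' | h'
      · rw [if_pos h', one_mul]
        exact (jacobiSym.quadratic_reciprocity_one_mod_four h' (Nat.odd_iff.mpr hb)).symm
      · rw [if_neg (by omega), jacobiSym.quadratic_reciprocity_three_mod_four h h']; ring
  rcases Int.natAbs_eq a with h | h
  · have h1 : a.natAbs % 2 = 1 := by omega
    conv_lhs => rw [h]
    rw [hpos _ h1]
    congr 1
    have : (a.natAbs % 4 = 1) ↔ a % 4 = 1 := by omega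
    simp only [this]
  · have h1 : a.natAbs % 2 = 1 := by omega
    conv_lhs => rw [h]
    rw [jacobiSym.neg _ hp, hpos _ h1, ← mul_assoc]
    congr 1
    have hsq : ZMod.χ₄ p * ZMod.χ₄ p = 1 := by
      rw [h4]; split_ifs <;> norm_num
    rcases (by omega : a % 4 = 1 ∨ a % 4 = 3) with h' | h'
    · rw [if_pos h', if_neg (by omega), hsq]
    · rw [if_neg (by omega : ¬ a % 4 = 1), if_pos (by omega), mul_one]

/-- a fundamental discriminant in terms of `ps` -/
lemma kr_eq {D : ℤ} (hD : IsFund D) : ∃ (e : Fin 4) (m : ℕ), Odd m ∧ Squarefree m ∧ rr e * m ≠ 1 ∧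
    D.natAbs = rr e * m ∧ ∀ p : ℕ, p.Prime → kr D p = ps e p * jacobiSym p m := by
  rcases hD with ⟨h4, hs, hne⟩ | ⟨a, rfl, ha, hs⟩
  · refine ⟨0, D.natAbs, Nat.odd_iff.mpr (by omega), Int.squarefree_natAbs.mpr hs, ?_, by simp [rr], ?_⟩
    · simp only [rr, Matrix.cons_val_zero, one_mul]; omega
    · intro p hp
      unfold kr
      split_ifs with h2 h8 h8'
      · subst h2
        have ho : Odd D.natAbs := Nat.odd_iff.mpr (by omega)
        simp only [ps, one_mul, Nat.cast_ofNat]
        rw [jacobiSym.at_two ho, ZMod.χ₈_nat_eq_if_mod_eight, if_neg (by omega), if_pos (by omega)]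
      · subst h2
        have ho : Odd D.natAbs := Nat.odd_iff.mpr (by omega)
        simp only [ps, one_mul, Nat.cast_ofNat]
        rw [jacobiSym.at_two ho, ZMod.χ₈_nat_eq_if_mod_eight, if_neg (by omega), if_neg (by omega)]
      · exfalso; omega
      · have hpo : Odd p := hp.odd_of_ne_two h2
        rw [qr (by omega) hpo, if_pos h4]; simp [ps]
  · -- D = 4 a
    have h2z : ∀ e : Fin 4, e ≠ 0 → ∀ m : ℕ, kr (4 * a) 2 = ps e 2 * jacobiSym (2 : ℕ) m := by
      intro e he m
      have : ps e 2 = 0 := by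
        fin_cases e
        · exact absurd rfl he
        · decide
        · decide
        · decide
      rw [this, zero_mul, kr, if_pos rfl, if_neg (by omega), if_neg (by omega)]
    have hodd4 : ∀ (p : ℕ), Odd p → ∀ b : ℤ, jacobiSym (4 * b) p = jacobiSym b p := by
      intro p hp b
      rw [jacobiSym.mul_left, jacobiSym.at_four hp, one_mul]
    rcases ha with ha | ha
    · -- a = 2 b
      obtain ⟨b, rfl⟩ : ∃ b, a = 2 * b := ⟨a / 2, by omega⟩
      have hb : b % 2 = 1 := by omega
      have hsb : Squarefree b := hs.of_mul_right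
      have hval : ∀ p : ℕ, p.Prime → p ≠ 2 → kr (4 * (2 * b)) p =
          ZMod.χ₈ p * ((if b % 4 = 1 then 1 else ZMod.χ₄ p) * jacobiSym p b.natAbs) := by
        intro p hp h2
        have hpo : Odd p := hp.odd_of_ne_two h2
        rw [kr, if_neg h2, hodd4 p hpo, jacobiSym.mul_left, jacobiSym.at_two hpo, qr hb hpo]
      have hnat : (4 * (2 * b)).natAbs = 8 * b.natAbs := by omega
      rcases (by omega : b % 4 = 1 ∨ b % 4 = 3) with hb4 | hb4
      · refine ⟨2, b.natAbs, Nat.odd_iff.mpr (by omega), Int.squarefree_natAbs.mpr hsb, ?_, hnat, ?_⟩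
        · simp [rr]
        · intro p hp
          by_cases h2 : p = 2
          · subst h2; exact h2z 2 (by decide) _
          · rw [hval p hp h2, if_pos hb4, one_mul]; rfl
      · refine ⟨3, b.natAbs, Nat.odd_iff.mpr (by omega), Int.squarefree_natAbs.mpr hsb, ?_, hnat, ?_⟩
        · simp [rr]
        · intro p hp
          by_cases h2 : p = 2
          · subst h2; exact h2z 3 (by decide) _
          · rw [hval p hp h2, if_neg (by omega), ← mul_assoc]
            congr 1
            simp only [ps]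
            have hpo := Nat.odd_iff.mp (hp.odd_of_ne_two h2)
            rw [ZMod.χ₈_nat_eq_if_mod_eight, ZMod.χ₈'_nat_eq_if_mod_eight, ZMod.χ₄_nat_eq_if_mod_four]
            rw [if_neg (by omega : ¬ p % 2 = 0), if_neg (by omega : ¬ p % 2 = 0), if_neg (by omega : ¬ p % 2 = 0)]
            rcases (by omega : p % 8 = 1 ∨ p % 8 = 3 ∨ p % 8 = 5 ∨ p % 8 = 7) with h | h | h | h
            · rw [if_pos (by omega), if_pos (by omega), if_pos (by omega)]; norm_num
            · rw [if_neg (by omega), if_neg (by omega), if_pos (by omega)]; norm_num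
            · rw [if_neg (by omega), if_pos (by omega), if_neg (by omega)]; norm_num
            · rw [if_pos (by omega), if_neg (by omega), if_neg (by omega)]; norm_num
    · have hnat : (4 * a).natAbs = 4 * a.natAbs := by omega
      refine ⟨1, a.natAbs, Nat.odd_iff.mpr (by omega), Int.squarefree_natAbs.mpr hs, ?_, hnat, ?_⟩
      · simp [rr]
      · intro p hp
        by_cases h2 : p = 2
        · subst h2; exact h2z 1 (by decide) _
        · have hpo : Odd p := hp.odd_of_ne_two h2
          rw [kr, if_neg h2, hodd4 p hpo, qr (by omega) hpo, if_neg (by omega)]; rfl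

/-- **The Kronecker symbol of a fundamental discriminant is a primitive quadratic character.** -/
theorem exists_char {D : ℤ} (hD : IsFund D) : ∃ χ : DirichletCharacter ℂ D.natAbs,
    χ.IsPrimitive ∧ χ ^ 2 = 1 ∧ χ ≠ 1 ∧ ∀ p : ℕ, p.Prime → χ p = (kr D p : ℂ) := by
  obtain ⟨e, m, h1, h2, h3, h4, h5⟩ := kr_eq hD
  rw [h4]
  obtain ⟨χ, c1, c2, c3, c4⟩ := exists_ps e h1 h2 h3
  exact ⟨χ, c1, c2, c3, fun p hp => by rw [c4, h5 p hp]⟩

end Run7.h788.OM
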