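import Mathlib

/-!
# Quadratic fields and their characters: definitions (project OM, MP_17f4cb_nt)
-/

set_option autoImplicit false

open NumberField

namespace Run7.h788.OM

/-- The value at a prime `p` of the idele class character of the quadratic field `E`:
`-1` if `p` is inert in `E` (the ideal `(p)` is prime), `0` if `p` is ramified (`(p)` is the square of an
ideal), `1` if `p` splits. -/
noncomputable def eta (E : Type) [Field E] [NumberField E] (p : ℕ) : ℤ :=
  open Classical in
  if (Ideal.span {(p : 𝓞 E)}).IsPrime then -1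
  else if ∃ P : Ideal (𝓞 E), P ^ 2 = Ideal.span {(p : 𝓞 E)} then 0 else 1

/-- fundamental discriminants -/
def IsFund (D : ℤ) : Prop :=
  (D % 4 = 1 ∧ Squarefree D ∧ D ≠ 1) ∨ ∃ m : ℤ, D = 4 * m ∧ (m % 4 = 2 ∨ m % 4 = 3) ∧ Squarefree m

/-- the Kronecker symbol `(D / p)` at a prime `p` -/
def kr (D : ℤ) (p : ℕ) : ℤ :=
  if p = 2 then (if D % 8 = 1 then 1 else if D % 8 = 5 then -1 else 0) else jacobiSym D p

end Run7.h788.OM
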