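import Pool.Agent.Run7.h788.OM.Br1
import Pool.Agent.Run7.h323.OM.BR2

/-!
# The quadratic character of a quadratic number field
-/

set_option autoImplicit false

namespace Run7.h788.OM

/-- **The bridge.** Every quadratic number field `E` has a primitive quadratic Dirichlet character
modulo `|discr E|` whose value at each prime `p` is `1`, `0`, `-1` according as `p` splits, is ramified or
is inert in `E`. -/
theorem bridge (E : Type) [Field E] [NumberField E] (h : Module.finrank ℚ E = 2) :
    ∃ χ : DirichletCharacter ℂ (NumberField.discr E).natAbs, χ.IsPrimitive ∧ χ ^ 2 = 1 ∧ χ ≠ 1 ∧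
      ∀ p : ℕ, p.Prime → χ p = (eta E p : ℂ) := by
  obtain ⟨χ, h1, h2, h3, h4⟩ := exists_char (Run7.h323.OM.isFund_discr E h)
  exact ⟨χ, h1, h2, h3, fun p hp => by rw [h4 p hp, Run7.h323.OM.eta_eq E h p hp]⟩

end Run7.h788.OM
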