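import Mathlib

/-!
# Gauss sums of primitive real characters
-/

set_option autoImplicit false

open Complex

namespace Run7.h788.OM

variable {q : ℕ} [NeZero q] {χ : DirichletCharacter ℂ q}

lemma gauss_ne (hp : χ.IsPrimitive) : gaussSum χ (ZMod.stdAddChar (N := q)) ≠ 0 := by
  intro h0
  have h1 : ZMod.dft (χ : ZMod q → ℂ) = 0 := by
    ext k
    rw [hp.fourierTransform_eq_inv_mul_gaussSum, h0, mul_zero]
    rfl
  have h2 : (χ : ZMod q → ℂ) = 0 := (LinearEquiv.map_eq_zero_iff _).mp h1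
  have h3 := congrFun h2 1
  simp at h3

lemma gauss_int (hp : χ.IsPrimitive) (n : ℤ) :
    ∑ v : ZMod q, χ v * Complex.exp (2 * Real.pi * I * (n * v.val : ℤ) / q) =
      χ⁻¹ (n : ZMod q) * gaussSum χ (ZMod.stdAddChar (N := q)) := by
  rw [← gaussSum_mulShift_of_isPrimitive _ hp, gaussSum]
  refine Finset.sum_congr rfl fun v _ => ?_
  rw [AddChar.mulShift_apply, ← ZMod.stdAddChar_coe]
  congr 2
  push_cast
  rw [ZMod.natCast_val, ZMod.cast_id', id]

omit [NeZero q] in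
lemma inv_eq_self (h2 : χ ^ 2 = 1) : χ⁻¹ = χ := by
  rw [inv_eq_iff_mul_eq_one, ← sq]; exact h2

lemma sin_sum (hp : χ.IsPrimitive) (h2 : χ ^ 2 = 1) (ho : χ (-1) = -1) (n : ℕ) :
    ∑ v : ZMod q, χ v * (2 * I * Complex.sin (2 * Real.pi * n * (v.val / q))) =
      2 * (gaussSum χ (ZMod.stdAddChar (N := q)) * χ n) := by
  have e1 := gauss_int hp (n : ℤ)
  have e2 := gauss_int hp (-(n : ℤ))
  have e3 : χ⁻¹ ((-(n : ℤ) : ℤ) : ZMod q) = - χ⁻¹ ((n : ℤ) : ZMod q) := by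
    rw [inv_eq_self h2]
    push_cast
    rw [← neg_one_mul, map_mul, ho, neg_one_mul]
  rw [e3] at e2
  have e4 : ∀ v : ZMod q, χ v * (2 * I * Complex.sin (2 * Real.pi * n * (v.val / q))) =
      χ v * Complex.exp (2 * Real.pi * I * (((n : ℤ) * v.val : ℤ) : ℂ) / q) -
      χ v * Complex.exp (2 * Real.pi * I * ((-(n : ℤ) * v.val : ℤ) : ℂ) / q) := by
    intro v
    rw [Complex.sin]
    have a1 : 2 * (Real.pi : ℂ) * n * (v.val / q) * I = 2 * Real.pi * I * (((n : ℤ) * v.val : ℤ) : ℂ) / q := by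
      push_cast; ring
    have a2 : -(2 * (Real.pi : ℂ) * n * (v.val / q)) * I = 2 * Real.pi * I * ((-(n : ℤ) * v.val : ℤ) : ℂ) / q := by
      push_cast; ring
    rw [a1, a2]
    linear_combination (-χ v * (Complex.exp (2 * Real.pi * I * (((n : ℤ) * v.val : ℤ) : ℂ) / q) -
      Complex.exp (2 * Real.pi * I * ((-(n : ℤ) * v.val : ℤ) : ℂ) / q))) * Complex.I_sq
  rw [Finset.sum_congr rfl fun v _ => e4 v, Finset.sum_sub_distrib, e1, e2, inv_eq_self h2]
  push_cast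
  ring

lemma cos_sum (hp : χ.IsPrimitive) (h2 : χ ^ 2 = 1) (he : χ (-1) = 1) (n : ℕ) :
    ∑ v : ZMod q, χ v * Complex.cos (2 * Real.pi * n * (v.val / q)) =
      gaussSum χ (ZMod.stdAddChar (N := q)) * χ n := by
  have e1 := gauss_int hp (n : ℤ)
  have e2 := gauss_int hp (-(n : ℤ))
  have e3 : χ⁻¹ ((-(n : ℤ) : ℤ) : ZMod q) = χ⁻¹ ((n : ℤ) : ZMod q) := by
    rw [inv_eq_self h2]
    push_cast
    rw [← neg_one_mul, map_mul, he, one_mul]
  rw [e3] at e2
  have e4 : ∀ v : ZMod q, χ v * Complex.cos (2 * Real.pi * n * (v.val / q)) =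
      (χ v * Complex.exp (2 * Real.pi * I * (((n : ℤ) * v.val : ℤ) : ℂ) / q) +
      χ v * Complex.exp (2 * Real.pi * I * ((-(n : ℤ) * v.val : ℤ) : ℂ) / q)) / 2 := by
    intro v
    rw [Complex.cos]
    have a1 : 2 * (Real.pi : ℂ) * n * (v.val / q) * I = 2 * Real.pi * I * (((n : ℤ) * v.val : ℤ) : ℂ) / q := by
      push_cast; ring
    have a2 : -(2 * (Real.pi : ℂ) * n * (v.val / q)) * I = 2 * Real.pi * I * ((-(n : ℤ) * v.val : ℤ) : ℂ) / q := by
      push_cast; ring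
    rw [a1, a2]
    ring
  rw [Finset.sum_congr rfl fun v _ => e4 v, ← Finset.sum_div, Finset.sum_add_distrib, e1, e2, inv_eq_self h2]
  push_cast
  ring

/-- sums against a character are sums over the units -/
lemma sum_units (F : ZMod q → ℂ) : ∑ v : ZMod q, χ v * F v = ∑ v : (ZMod q)ˣ, χ (v : ZMod q) * F v := by
  classical
  rw [← Finset.sum_subset (Finset.subset_univ
    (Finset.univ.map ⟨(Units.val : (ZMod q)ˣ → ZMod q), Units.val_injective⟩))]
  · rw [Finset.sum_map]; rfl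
  · intro v _ hv
    have : ¬ IsUnit v := by
      rintro ⟨w, rfl⟩
      exact hv (Finset.mem_map.mpr ⟨w, Finset.mem_univ _, rfl⟩)
    rw [MulChar.map_nonunit _ this, zero_mul]

/-- the change of variables `v ↦ - v⁻¹` -/
lemma sum_move (h2 : χ ^ 2 = 1) {F G : ZMod q → ℂ} (c : ℂ)
    (hFG : ∀ v w : ZMod q, v * w = -1 → F v = c * G w) :
    ∑ v : ZMod q, χ v * F v = c * χ (-1) * ∑ v : ZMod q, χ v * G v := by
  rw [sum_units, sum_units, Finset.mul_sum]
  refine Fintype.sum_equiv ((Equiv.inv _).trans (Equiv.neg _)) _ _ fun v => ?_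
  simp only [Equiv.trans_apply, Equiv.inv_apply, Equiv.neg_apply]
  have h3 : (v : ZMod q) * ((-v⁻¹ : (ZMod q)ˣ) : ZMod q) = -1 := by
    rw [← Units.val_mul]; simp
  rw [hFG _ _ h3]
  have h4 : χ (((-v⁻¹ : (ZMod q)ˣ) : ZMod q)) = χ (-1) * χ (v : ZMod q) := by
    have h5 : χ (v : ZMod q) * χ (((-v⁻¹ : (ZMod q)ˣ) : ZMod q)) = χ (-1) := by
      rw [← map_mul, h3]
    have h6 : χ (v : ZMod q) * χ (v : ZMod q) = 1 := by
      rw [← MulChar.mul_apply, ← sq, h2, MulChar.one_apply v.isUnit]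
    calc χ (((-v⁻¹ : (ZMod q)ˣ) : ZMod q))
        = (χ (v : ZMod q) * χ (v : ZMod q)) * χ (((-v⁻¹ : (ZMod q)ˣ) : ZMod q)) := by rw [h6, one_mul]
      _ = χ (v : ZMod q) * (χ (v : ZMod q) * χ (((-v⁻¹ : (ZMod q)ˣ) : ZMod q))) := by ring
      _ = _ := by rw [h5]; ring
  have h7 : χ (-1) * χ (-1) = (1 : ℂ) := by
    rw [← map_mul]; simp
  rw [h4]
  linear_combination (-(c * χ (v : ZMod q) * G ((-v⁻¹ : (ZMod q)ˣ) : ZMod q))) * h7

end Run7.h788.OM
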