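import Mathlib

/-!
# Mellin transforms: Dirichlet series and symmetric functions
-/

set_option autoImplicit false

open MeasureTheory Set Filter Topology Asymptotics

namespace Run7.h788.OM

/-- The Mellin transform of `∑ b n φ(n y)`. -/
theorem mellin_dirichlet {φ : ℝ → ℂ} {b : ℕ → ℂ} {w : ℂ} (hφ : MellinConvergent φ w)
    (hb : Summable fun n : ℕ => ‖b n‖ * (n : ℝ) ^ (-w.re)) (hb0 : b 0 = 0) {f : ℝ → ℂ}
    (hf : ∀ y, 0 < y → HasSum (fun n : ℕ => b n * φ (n * y)) (f y)) :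
    HasSum (fun n : ℕ => b n * (n : ℂ) ^ (-w) * mellin φ w) (mellin f w) := by
  have hpos : ∀ n : ℕ, n ≠ 0 → (0 : ℝ) < n := fun n hn => by positivity
  -- convergence of each term
  have hconv : ∀ n : ℕ, n ≠ 0 → MellinConvergent (fun t => φ ((n : ℝ) * t)) w := fun n hn =>
    (MellinConvergent.comp_mul_left (hpos n hn)).mpr hφ
  have hval : ∀ n : ℕ, n ≠ 0 → mellin (fun t => φ ((n : ℝ) * t)) w = (n : ℂ) ^ (-w) * mellin φ w := by
    intro n hn
    rw [mellin_comp_mul_left φ w (hpos n hn)]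
    simp
  have hint : ∀ n : ℕ, Integrable (fun t : ℝ => (t : ℂ) ^ (w - 1) • (b n * φ ((n : ℝ) * t)))
      (volume.restrict (Ioi 0)) := by
    intro n
    rcases eq_or_ne n 0 with rfl | hn
    · simp [hb0]
    · have : Integrable (fun t : ℝ => (t : ℂ) ^ (w - 1) • φ ((n : ℝ) * t)) (volume.restrict (Ioi 0)) := hconv n hn
      refine (this.const_mul (b n)).congr (Eventually.of_forall fun t => ?_)
      simp only [smul_eq_mul]; ring
  set I : ℝ := ∫ t in Ioi (0 : ℝ), ‖(t : ℂ) ^ (w - 1) • φ t‖ with hI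
  have hnorm : ∀ n : ℕ, ∫ t in Ioi (0 : ℝ), ‖(t : ℂ) ^ (w - 1) • (b n * φ ((n : ℝ) * t))‖ =
      ‖b n‖ * (n : ℝ) ^ (-w.re) * I := by
    intro n
    rcases eq_or_ne n 0 with rfl | hn
    · simp [hb0]
    · have hn0 := hpos n hn
      have e1 : ∀ t ∈ Ioi (0 : ℝ), ‖(t : ℂ) ^ (w - 1) • (b n * φ ((n : ℝ) * t))‖ =
          ‖b n‖ * (n : ℝ) ^ (1 - w.re) * ‖(((n : ℝ) * t : ℝ) : ℂ) ^ (w - 1) • φ ((n : ℝ) * t)‖ := by
        intro t ht
        have ht0 : 0 < t := ht
        rw [norm_smul, norm_smul, norm_mul, Complex.norm_cpow_eq_rpow_re_of_pos ht0,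
          Complex.norm_cpow_eq_rpow_re_of_pos (by positivity), Real.mul_rpow hn0.le ht0.le]
        have e2 : (n : ℝ) ^ (1 - w.re) * (n : ℝ) ^ ((w - 1).re) = 1 := by
          rw [← Real.rpow_add hn0]; simp
        calc t ^ (w - 1).re * (‖b n‖ * ‖φ ((n : ℝ) * t)‖)
            = ((n : ℝ) ^ (1 - w.re) * (n : ℝ) ^ ((w - 1).re)) * (t ^ (w - 1).re * (‖b n‖ * ‖φ ((n : ℝ) * t)‖)) := by
              rw [e2, one_mul]
          _ = _ := by ring
      rw [setIntegral_congr_fun measurableSet_Ioi e1, integral_const_mul,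
        integral_comp_mul_left_Ioi (fun t : ℝ => ‖(t : ℂ) ^ (w - 1) • φ t‖) 0 hn0, mul_zero, ← hI]
      rw [smul_eq_mul]
      have e3 : (n : ℝ) ^ (1 - w.re) * (n : ℝ)⁻¹ = (n : ℝ) ^ (-w.re) := by
        rw [← Real.rpow_neg_one, ← Real.rpow_add hn0]; ring_nf
      calc ‖b n‖ * (n : ℝ) ^ (1 - w.re) * ((n : ℝ)⁻¹ * I) = ‖b n‖ * ((n : ℝ) ^ (1 - w.re) * (n : ℝ)⁻¹) * I := by ring
        _ = _ := by rw [e3]
  have hsum : Summable fun n : ℕ => ∫ t in Ioi (0 : ℝ), ‖(t : ℂ) ^ (w - 1) • (b n * φ ((n : ℝ) * t))‖ := by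
    simp_rw [hnorm]
    exact hb.mul_right I
  have key := hasSum_integral_of_summable_integral_norm hint hsum
  have e4 : ∫ t in Ioi (0 : ℝ), (∑' n : ℕ, (t : ℂ) ^ (w - 1) • (b n * φ ((n : ℝ) * t))) = mellin f w := by
    rw [mellin]
    refine setIntegral_congr_fun measurableSet_Ioi fun t ht => ?_
    exact ((hf t ht).const_smul ((t : ℂ) ^ (w - 1))).tsum_eq
  rw [e4] at key
  refine key.congr_fun ?_ |> fun h => h
  intro n
  rcases eq_or_ne n 0 with rfl | hn
  · simp [hb0]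
  · have e5 : ∫ t in Ioi (0 : ℝ), (t : ℂ) ^ (w - 1) • (b n * φ ((n : ℝ) * t)) =
        b n * mellin (fun t => φ ((n : ℝ) * t)) w := by
      rw [mellin, ← integral_const_mul]
      refine setIntegral_congr_fun measurableSet_Ioi fun t _ => ?_
      simp only [smul_eq_mul]; ring
    rw [e5, hval n hn]; ring

/-- A function with exponential decay and the symmetry `f (1 / (Q y)) = ε f y`. -/
theorem mellin_symm {f : ℝ → ℂ} (hfc : ContinuousOn f (Ioi 0))
    {c : ℝ} (hc : 0 < c) (htop : f =O[atTop] fun t => Real.exp (-c * t)) {Q : ℝ} (hQ : 0 < Q) {ε : ℂ}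
    (hfe : ∀ y, 0 < y → f (Q⁻¹ * y⁻¹) = ε * f y) :
    Differentiable ℂ (mellin f) ∧ mellin f 0 = ε * mellin f 0 := by
  have htop' : ∀ a : ℝ, f =O[atTop] fun t => t ^ (-a) := fun a =>
    htop.trans (isLittleO_exp_neg_mul_rpow_atTop hc _).isBigO
  have hf2 : ∀ y, 0 < y → f y = ε * f (Q⁻¹ * y⁻¹) := by
    intro y hy
    have h1 := hfe (Q⁻¹ * y⁻¹) (by positivity)
    rw [← h1]; congr 1; field_simp
  have hbot : ∀ a : ℝ, f =O[𝓝[>] 0] fun t => t ^ (-(-a)) := by
    intro a
    have ht : Tendsto (fun y : ℝ => Q⁻¹ * y⁻¹) (𝓝[>] 0) atTop :=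
      (tendsto_inv_nhdsGT_zero).const_mul_atTop (by positivity)
    have h1 := (htop' a).comp_tendsto ht
    have h2 : (fun y : ℝ => f (Q⁻¹ * y⁻¹)) =O[𝓝[>] 0] fun y : ℝ => y ^ (-(-a)) := by
      refine h1.trans ?_
      refine IsBigO.of_bound (‖(Q⁻¹) ^ (-a)‖) ?_
      filter_upwards [self_mem_nhdsWithin] with y hy
      have hy0 : (0 : ℝ) < y := hy
      simp only [Function.comp_apply]
      rw [Real.mul_rpow (by positivity) (by positivity), norm_mul, Real.inv_rpow hy0.le, ← Real.rpow_neg hy0.le]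
    have h3 : f =ᶠ[𝓝[>] 0] fun y : ℝ => ε * f (Q⁻¹ * y⁻¹) := by
      filter_upwards [self_mem_nhdsWithin] with y hy using hf2 y hy
    exact (h2.const_mul_left ε).congr' h3.symm EventuallyEq.rfl
  refine ⟨fun s => ?_, ?_⟩
  · exact mellin_differentiableAt_of_isBigO_rpow (a := s.re + 1) (b := -(1 - s.re)) (s := s)
      (hfc.locallyIntegrableOn measurableSet_Ioi) (htop' _) (by linarith) (hbot (1 - s.re)) (by linarith)
  · have e1 : mellin (fun t => f (Q⁻¹ * t⁻¹)) 0 = mellin f 0 := by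
      have h1 := mellin_comp_inv (fun t => f (Q⁻¹ * t)) 0
      rw [neg_zero] at h1
      rw [h1, mellin_comp_mul_left f 0 (by positivity : 0 < Q⁻¹)]
      simp
    have e2 : mellin (fun t => f (Q⁻¹ * t⁻¹)) 0 = ε * mellin f 0 := by
      rw [mellin, mellin, ← integral_const_mul]
      refine setIntegral_congr_fun measurableSet_Ioi fun t ht => ?_
      simp only [smul_eq_mul]
      rw [hfe t ht]; ring
    exact e1.symm.trans e2

section
variable {φ f : ℝ → ℂ} {b : ℕ → ℂ} {A D c : ℝ}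

lemma conv_of_exp (hφc : ContinuousOn φ (Ioi 0)) (hc : 0 < c)
    (hφ : ∀ y, 0 < y → ‖φ y‖ ≤ D * Real.exp (-c * y)) {w : ℂ} (hw : 0 < w.re) :
    MellinConvergent φ w := by
  have hD : 0 ≤ D := by
    have := (norm_nonneg _).trans (hφ 1 one_pos)
    exact nonneg_of_mul_nonneg_left this (Real.exp_pos _)
  refine mellinConvergent_of_isBigO_rpow_exp hc (hφc.locallyIntegrableOn measurableSet_Ioi) ?_ (b := 0) ?_ hw
  · refine IsBigO.of_bound D ?_
    filter_upwards [eventually_gt_atTop 0] with y hy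
    rw [Real.norm_of_nonneg (Real.exp_pos _).le]
    exact hφ y hy
  · refine IsBigO.of_bound D ?_
    filter_upwards [self_mem_nhdsWithin] with y hy
    have hy0 : (0 : ℝ) < y := hy
    have h1 : Real.exp (-c * y) ≤ 1 := Real.exp_le_one_iff.mpr (by nlinarith)
    have := hφ y hy
    simp only [neg_zero, Real.rpow_zero, norm_one, mul_one]
    nlinarith

/-- series of the form `∑ b n φ(n y)`: Mellin transform under a symmetry. -/
theorem core (hφc : ContinuousOn φ (Ioi 0)) (hc : 0 < c)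
    (hφ : ∀ y, 0 < y → ‖φ y‖ ≤ D * Real.exp (-c * y)) (hb0 : b 0 = 0) (hb : ∀ n, ‖b n‖ ≤ A)
    (hf : ∀ y, 0 < y → HasSum (fun n : ℕ => b n * φ (n * y)) (f y)) {Q : ℝ} (hQ : 0 < Q) {ε : ℂ}
    (hfe : ∀ y, 0 < y → f (Q⁻¹ * y⁻¹) = ε * f y) :
    Differentiable ℂ (mellin f) ∧ mellin f 0 = ε * mellin f 0 ∧
    ∀ w : ℂ, 1 < w.re → HasSum (fun n : ℕ => b n * (n : ℂ) ^ (-w) * mellin φ w) (mellin f w) := by
  have hD : 0 ≤ D := by
    have := (norm_nonneg _).trans (hφ 1 one_pos)
    exact nonneg_of_mul_nonneg_left this (Real.exp_pos _)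
  have hA : 0 ≤ A := (norm_nonneg _).trans (hb 0)
  -- termwise bound
  have hterm : ∀ (n : ℕ) (y y₀ : ℝ), 0 < y₀ → y₀ ≤ y →
      ‖b n * φ (n * y)‖ ≤ A * D * Real.exp (-c * y₀) ^ n := by
    intro n y y₀ hy₀ hy
    rcases eq_or_ne n 0 with rfl | hn
    · simp [hb0]; positivity
    · have hn0 : (0 : ℝ) < n := by positivity
      have h1 := hφ (n * y) (mul_pos hn0 (hy₀.trans_le hy))
      rw [norm_mul, ← Real.exp_nat_mul]
      have h2 : Real.exp (-c * (n * y)) ≤ Real.exp (n * (-c * y₀)) := by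
        apply Real.exp_le_exp.mpr
        have : (n : ℝ) * c * y₀ ≤ n * c * y := by gcongr
        nlinarith
      calc ‖b n‖ * ‖φ (n * y)‖ ≤ A * (D * Real.exp (n * (-c * y₀))) := by
            refine mul_le_mul (hb n) (h1.trans ?_) (norm_nonneg _) hA
            exact mul_le_mul_of_nonneg_left h2 hD
        _ = _ := by ring
  have hgeo : ∀ y₀ : ℝ, 0 < y₀ → Summable fun n : ℕ => A * D * Real.exp (-c * y₀) ^ n := by
    intro y₀ hy₀
    refine (summable_geometric_of_lt_one (Real.exp_pos _).le ?_).mul_left _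
    rw [Real.exp_lt_one_iff]; nlinarith
  have hfc : ContinuousOn f (Ioi 0) := by
    intro y hy
    have hy0 : (0 : ℝ) < y := hy
    have h1 : ContinuousOn (fun y => ∑' n : ℕ, b n * φ (n * y)) (Ioi (y / 2)) := by
      refine continuousOn_tsum (u := fun n : ℕ => A * D * Real.exp (-c * (y / 2)) ^ n) ?_ (hgeo _ (by linarith)) ?_
      · intro n
        rcases eq_or_ne n 0 with rfl | hn
        · simp only [hb0, zero_mul]; exact continuousOn_const
        · refine continuousOn_const.mul (hφc.comp (by fun_prop) ?_)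
          intro t ht
          have ht' : y / 2 < t := ht
          have hn0 : (0 : ℝ) < n := by positivity
          exact mul_pos hn0 (by linarith)
      · intro n t ht
        exact hterm n t (y / 2) (by linarith) (le_of_lt ht)
    have h2 : ContinuousAt (fun y => ∑' n : ℕ, b n * φ (n * y)) y :=
      h1.continuousAt (Ioi_mem_nhds (by linarith))
    refine (h2.congr ?_).continuousWithinAt
    filter_upwards [Ioi_mem_nhds hy0] with t ht
    exact (hf t ht).tsum_eq
  have htop : f =O[atTop] fun t => Real.exp (-c * t) := by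
    have hr : Real.exp (-c) < 1 := by rw [Real.exp_lt_one_iff]; linarith
    refine IsBigO.of_bound (A * D * Real.exp c * (1 - Real.exp (-c))⁻¹) ?_
    filter_upwards [eventually_ge_atTop 1] with y hy
    rw [Real.norm_of_nonneg (Real.exp_pos _).le, ← (hf y (by linarith)).tsum_eq]
    have hs : HasSum (fun n : ℕ => A * D * Real.exp c * Real.exp (-c * y) * Real.exp (-c) ^ n)
        (A * D * Real.exp c * Real.exp (-c * y) * (1 - Real.exp (-c))⁻¹) :=
      (hasSum_geometric_of_lt_one (Real.exp_pos _).le hr).mul_left _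
    refine (tsum_of_norm_bounded hs fun n => ?_).trans (le_of_eq (by ring))
    rcases eq_or_ne n 0 with rfl | hn
    · simp only [hb0, zero_mul, norm_zero]; positivity
    · have h1 : (1 : ℝ) ≤ n := by exact_mod_cast Nat.one_le_iff_ne_zero.mpr hn
      refine (hterm n y y (by linarith) le_rfl).trans ?_
      rw [← Real.exp_nat_mul, ← Real.exp_nat_mul]
      have e1 : A * D * Real.exp c * Real.exp (-c * y) * Real.exp (n * -c) =
        A * D * Real.exp (c + -c * y + n * -c) := by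
        rw [Real.exp_add, Real.exp_add]; ring
      rw [e1]
      refine mul_le_mul_of_nonneg_left (Real.exp_le_exp.mpr ?_) (by positivity)
      nlinarith [mul_nonneg (mul_nonneg hc.le (by linarith : (0:ℝ) ≤ n - 1)) (by linarith : (0:ℝ) ≤ y - 1)]
  obtain ⟨h1, h2⟩ := mellin_symm hfc hc htop hQ hfe
  refine ⟨h1, h2, fun w hw => ?_⟩
  refine mellin_dirichlet (conv_of_exp hφc hc hφ (by linarith)) ?_ hb0 hf
  have hs : Summable fun n : ℕ => A * (n : ℝ) ^ (-w.re) :=
    (Real.summable_nat_rpow.mpr (by linarith)).mul_left A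
  refine Summable.of_nonneg_of_le (fun n => by positivity) (fun n => ?_) hs
  exact mul_le_mul_of_nonneg_right (hb n) (by positivity)

end

end Run7.h788.OM
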