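import Mathlib

/-!
# A function with exponential decay all of whose even moments vanish is zero
-/

set_option autoImplicit false

open MeasureTheory Set Filter Topology

namespace Run7.h788.OM

lemma norm_cos_le (w : ℂ) : ‖Complex.cos w‖ ≤ Real.exp |w.im| := by
  rw [Complex.cos, norm_div, Complex.norm_ofNat]
  have h1 : ‖Complex.exp (w * Complex.I)‖ ≤ Real.exp |w.im| := by
    rw [Complex.norm_exp]
    apply Real.exp_le_exp.mpr
    simp only [Complex.mul_re, Complex.I_re, mul_zero, Complex.I_im, mul_one, zero_sub]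
    exact neg_le_abs _
  have h2 : ‖Complex.exp (-w * Complex.I)‖ ≤ Real.exp |w.im| := by
    rw [Complex.norm_exp]
    apply Real.exp_le_exp.mpr
    simp only [Complex.mul_re, Complex.neg_re, Complex.neg_im, Complex.I_re, mul_zero, Complex.I_im, mul_one, zero_sub, neg_neg]
    exact le_abs_self _
  have := norm_add_le (Complex.exp (w * Complex.I)) (Complex.exp (-w * Complex.I))
  rw [div_le_iff₀ (by norm_num)]
  linarith

lemma norm_sin_le (w : ℂ) : ‖Complex.sin w‖ ≤ Real.exp |w.im| := by
  have h := norm_cos_le (w - Real.pi / 2)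
  rw [Complex.cos_sub_pi_div_two] at h
  simpa using h

section
variable {g : ℝ → ℂ} {δ : ℝ}

/-- the cosine transform -/
noncomputable def ct (g : ℝ → ℂ) (z : ℂ) : ℂ := ∫ y in Ioi (0 : ℝ), g y * Complex.cos (z * y)

lemma meas_g (hc : ContinuousOn g (Ioi 0)) : AEStronglyMeasurable g (volume.restrict (Ioi 0)) :=
  hc.aestronglyMeasurable measurableSet_Ioi

lemma ct_diff (hδ : 0 < δ) (hc : ContinuousOn g (Ioi 0))
    (hi : IntegrableOn (fun y => ‖g y‖ * Real.exp (δ * y)) (Ioi 0)) {z₀ : ℂ} (hz : |z₀.im| < δ) :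
    DifferentiableAt ℂ (ct g) z₀ := by
  set ε : ℝ := (δ - |z₀.im|) / 2 with hε
  have hε0 : 0 < ε := by rw [hε]; linarith
  have key := (hasDerivAt_integral_of_dominated_loc_of_deriv_le (μ := volume.restrict (Ioi (0:ℝ)))
    (F := fun z y => g y * Complex.cos (z * y)) (F' := fun z y => g y * (-Complex.sin (z * y) * y))
    (x₀ := z₀) (s := Metric.ball z₀ ε) (bound := fun y => (1 / ε) * (‖g y‖ * Real.exp (δ * y)))
    (Metric.ball_mem_nhds z₀ hε0) ?_ ?_ ?_ ?_ ?_ ?_).2
  · exact key.differentiableAt
  · refine Eventually.of_forall fun z => (meas_g hc).mul ?_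
    exact (Complex.continuous_cos.comp (by fun_prop)).aestronglyMeasurable
  · refine hi.mono' ((meas_g hc).mul (Complex.continuous_cos.comp (by fun_prop)).aestronglyMeasurable) ?_
    filter_upwards [ae_restrict_mem measurableSet_Ioi] with y hy
    rw [norm_mul]
    refine mul_le_mul_of_nonneg_left ((norm_cos_le _).trans (Real.exp_le_exp.mpr ?_)) (norm_nonneg _)
    have hy' : 0 < y := hy
    simp only [Complex.mul_im, Complex.ofReal_re, Complex.ofReal_im, mul_zero, zero_add, abs_mul, abs_of_pos hy']
    exact mul_le_mul_of_nonneg_right hz.le hy'.le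
  · refine (meas_g hc).mul ?_
    exact Continuous.aestronglyMeasurable (by fun_prop)
  · filter_upwards [ae_restrict_mem measurableSet_Ioi] with y hy z hzb
    have hy' : 0 < y := hy
    rw [norm_mul, norm_mul, norm_neg, Complex.norm_real, Real.norm_of_nonneg hy'.le]
    have h1 : |z.im| ≤ δ - ε := by
      have h2 : |z.im - z₀.im| < ε := lt_of_le_of_lt (by
        have := Complex.abs_im_le_norm (z - z₀)
        simpa using this) (by simpa [dist_eq_norm] using hzb)
      have h3 : |z.im| ≤ |z.im - z₀.im| + |z₀.im| := by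
        have := abs_add_le (z.im - z₀.im) z₀.im
        simpa using this
      have : |z₀.im| = δ - 2 * ε := by rw [hε]; ring
      linarith
    have h4 : ‖Complex.sin (z * y)‖ ≤ Real.exp ((δ - ε) * y) := by
      refine (norm_sin_le _).trans (Real.exp_le_exp.mpr ?_)
      simp only [Complex.mul_im, Complex.ofReal_re, Complex.ofReal_im, mul_zero, zero_add, abs_mul, abs_of_pos hy']
      exact mul_le_mul_of_nonneg_right h1 hy'.le
    have h5 : ε * y ≤ Real.exp (ε * y) := (Real.add_one_le_exp _).trans' (by linarith)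
    have h6 : y ≤ (1 / ε) * Real.exp (ε * y) := by
      rw [one_div, inv_mul_eq_div, le_div_iff₀ hε0]; linarith
    calc ‖g y‖ * (‖Complex.sin (z * y)‖ * y)
        ≤ ‖g y‖ * (Real.exp ((δ - ε) * y) * ((1 / ε) * Real.exp (ε * y))) := by
          gcongr
      _ = (1 / ε) * (‖g y‖ * Real.exp (δ * y)) := by
          rw [show δ * y = (δ - ε) * y + ε * y by ring, Real.exp_add]; ring
  · exact hi.const_mul _
  · refine Eventually.of_forall fun y z _ => ?_
    have h := ((Complex.hasDerivAt_cos (z * y)).comp z ((hasDerivAt_id z).mul_const (y : ℂ))).const_mul (g y)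
    simpa using h

lemma ct_near_zero (hc : ContinuousOn g (Ioi 0))
    (hi : IntegrableOn (fun y => ‖g y‖ * Real.exp (δ * y)) (Ioi 0))
    (hm : ∀ k : ℕ, ∫ y in Ioi (0 : ℝ), g y * (y : ℂ) ^ (2 * k) = 0) {z : ℂ} (hz : ‖z‖ < δ) :
    ct g z = 0 := by
  have key := hasSum_integral_of_dominated_convergence (μ := volume.restrict (Ioi (0:ℝ)))
    (F := fun (n : ℕ) y => g y * ((-1) ^ n * (z * y) ^ (2 * n) / ((2 * n).factorial : ℂ)))
    (f := fun y => g y * Complex.cos (z * y))
    (fun (n : ℕ) y => ‖g y‖ * ((‖z‖ * y) ^ (2 * n) / ((2 * n).factorial : ℝ)))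
    ?_ ?_ ?_ ?_ ?_
  · have h0 : ∀ n : ℕ, ∫ y in Ioi (0 : ℝ), g y * ((-1) ^ n * (z * y) ^ (2 * n) / ((2 * n).factorial : ℂ)) = 0 := by
      intro n
      have : ∀ y : ℝ, g y * ((-1) ^ n * (z * y) ^ (2 * n) / ((2 * n).factorial : ℂ))
          = ((-1) ^ n * z ^ (2 * n) / ((2 * n).factorial : ℂ)) * (g y * (y : ℂ) ^ (2 * n)) := by
        intro y; rw [mul_pow]; ring
      simp_rw [this]
      rw [integral_const_mul, hm, mul_zero]
    simp_rw [h0] at key
    exact (key.unique hasSum_zero)
  · intro n
    exact (meas_g hc).mul (Continuous.aestronglyMeasurable (by fun_prop))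
  · intro n
    filter_upwards [ae_restrict_mem measurableSet_Ioi] with y hy
    have hy' : 0 < y := hy
    rw [norm_mul]
    apply le_of_eq
    congr 1
    simp [norm_pow, abs_of_pos hy']
  · filter_upwards with y
    exact ((Real.hasSum_cosh (‖z‖ * y)).summable).mul_left _
  · have : ∀ y : ℝ, (∑' n : ℕ, ‖g y‖ * ((‖z‖ * y) ^ (2 * n) / ((2 * n).factorial : ℝ)))
        = ‖g y‖ * Real.cosh (‖z‖ * y) := by
      intro y
      rw [tsum_mul_left, (Real.hasSum_cosh (‖z‖ * y)).tsum_eq]
    simp_rw [this]
    refine hi.mono' (((meas_g hc).norm).mul (Continuous.aestronglyMeasurable (by fun_prop))) ?_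
    filter_upwards [ae_restrict_mem measurableSet_Ioi] with y hy
    have hy' : 0 < y := hy
    rw [Real.norm_of_nonneg (by positivity)]
    refine mul_le_mul_of_nonneg_left ?_ (norm_nonneg _)
    rw [Real.cosh_eq]
    have h1 : Real.exp (‖z‖ * y) ≤ Real.exp (δ * y) := Real.exp_le_exp.mpr (by gcongr)
    have h2 : Real.exp (-(‖z‖ * y)) ≤ Real.exp (δ * y) := Real.exp_le_exp.mpr (by
      have := norm_nonneg z
      have h3 : ‖z‖ * y ≤ δ * y := by gcongr
      have : 0 ≤ ‖z‖ * y := by positivity
      linarith)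
    linarith
  · filter_upwards with y
    exact (Complex.hasSum_cos (z * y)).mul_left _

lemma ct_zero (hδ : 0 < δ) (hc : ContinuousOn g (Ioi 0))
    (hi : IntegrableOn (fun y => ‖g y‖ * Real.exp (δ * y)) (Ioi 0))
    (hm : ∀ k : ℕ, ∫ y in Ioi (0 : ℝ), g y * (y : ℂ) ^ (2 * k) = 0) (t : ℝ) :
    ct g t = 0 := by
  set S : Set ℂ := {z : ℂ | |z.im| < δ} with hS
  have hSo : IsOpen S := isOpen_lt (by fun_prop) continuous_const
  have hSc : IsPreconnected S := by
    apply Convex.isPreconnected
    intro x hx y hy a b ha hb hab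
    simp only [hS, mem_ofPred_eq] at hx hy ⊢
    rw [abs_lt] at hx hy ⊢
    simp only [Complex.add_im, Complex.real_smul, Complex.mul_im, Complex.ofReal_re, Complex.ofReal_im, zero_mul, add_zero]
    constructor
    · have h1 : a * (-δ) ≤ a * x.im := mul_le_mul_of_nonneg_left hx.1.le ha
      have h2 : b * (-δ) ≤ b * y.im := mul_le_mul_of_nonneg_left hy.1.le hb
      rcases ha.eq_or_lt with h | h
      · have hb1 : b = 1 := by linarith
        subst hb1; rw [← h]; simp; linarith [hy.1]
      · have h3 : a * (-δ) < a * x.im := mul_lt_mul_of_pos_left hx.1 h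
        nlinarith
    · have h1 : a * x.im ≤ a * δ := mul_le_mul_of_nonneg_left hx.2.le ha
      have h2 : b * y.im ≤ b * δ := mul_le_mul_of_nonneg_left hy.2.le hb
      rcases ha.eq_or_lt with h | h
      · have hb1 : b = 1 := by linarith
        subst hb1; rw [← h]; simp; linarith [hy.2]
      · have h3 : a * x.im < a * δ := mul_lt_mul_of_pos_left hx.2 h
        nlinarith
  have hA : AnalyticOnNhd ℂ (ct g) S :=
    DifferentiableOn.analyticOnNhd (fun z hz => (ct_diff hδ hc hi hz).differentiableWithinAt) hSo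
  have h0 : (0 : ℂ) ∈ S := by simp [hS, hδ]
  have hev : ct g =ᶠ[𝓝 0] 0 := by
    filter_upwards [Metric.ball_mem_nhds (0 : ℂ) hδ] with z hz
    exact ct_near_zero hc hi hm (by simpa using hz)
  have := hA.eqOn_zero_of_preconnected_of_eventuallyEq_zero hSc h0 hev
  have ht : (t : ℂ) ∈ S := by simp [hS, hδ]
  simpa using this ht

/-- **Determinacy.** -/
theorem moments_zero (hδ : 0 < δ) (hc : ContinuousOn g (Ioi 0))
    (hi : IntegrableOn (fun y => ‖g y‖ * Real.exp (δ * y)) (Ioi 0))
    (hm : ∀ k : ℕ, ∫ y in Ioi (0 : ℝ), g y * (y : ℂ) ^ (2 * k) = 0) {v : ℝ} (hv : 0 < v) :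
    g v = 0 := by
  have hg : IntegrableOn g (Ioi 0) := by
    refine hi.mono' (meas_g hc) ?_
    filter_upwards [ae_restrict_mem measurableSet_Ioi] with y hy
    have hy' : 0 < y := hy
    have : 1 ≤ Real.exp (δ * y) := Real.one_le_exp (by positivity)
    exact le_mul_of_one_le_right (norm_nonneg _) this
  set f : ℝ → ℂ := fun y => g |y| with hf
  have hfp : IntegrableOn f (Ioi 0) := hg.congr_fun (fun y hy => by
    have hy' : 0 < y := hy
    simp [hf, abs_of_pos hy']) measurableSet_Ioi
  have hfn : IntegrableOn f (Iic 0) := by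
    have h1 : IntegrableOn f (Ici 0) := Iff.mpr integrableOn_Ici_iff_integrableOn_Ioi hfp
    have h2 := (Iff.mpr integrableOn_Ici_iff_integrableOn_Ioi hfp).comp_neg
    have h3 : (-(Ici (0:ℝ))) = Iic 0 := by simp
    simpa [hf, h3] using h2
  have hfi : Integrable f := by
    rw [← integrableOn_univ, ← Iic_union_Ioi (a := (0:ℝ))]
    exact hfn.union hfp
  have hF : FourierTransform.fourier f = 0 := by
    ext t
    rw [Real.fourier_eq']
    simp only [Pi.zero_apply]
    set h : ℝ → ℂ := fun y => Complex.exp (↑(-2 * Real.pi * inner ℝ y t) * Complex.I) • f y with hh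
    change ∫ y, h y = 0
    have hhi : Integrable h := by
      refine hfi.bdd_mul (c := 1) (Continuous.aestronglyMeasurable (by fun_prop)) (Eventually.of_forall fun y => ?_)
      rw [Complex.norm_exp_ofReal_mul_I]
    have h1 : ∫ y, h y = ∫ y, h (-y) := (integral_neg_eq_self h volume).symm
    have h2 : ∀ y, h y + h (-y) = 2 * (f y * Complex.cos ((2 * Real.pi * t : ℝ) * y)) := by
      intro y
      simp only [hh, hf, abs_neg, smul_eq_mul, conj_trivial, RCLike.inner_apply]
      rw [Complex.cos]
      have e1 : (((2 * Real.pi * t : ℝ) : ℂ) * (y : ℂ)) * Complex.I = ↑(-2 * Real.pi * -(t * y)) * Complex.I := by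
        push_cast; ring
      have e2 : -(((2 * Real.pi * t : ℝ) : ℂ) * (y : ℂ)) * Complex.I = ↑(-2 * Real.pi * (t * y)) * Complex.I := by
        push_cast; ring
      rw [e1, e2]; ring
    have h3 : 2 * ∫ y, h y = ∫ y, 2 * (f y * Complex.cos ((2 * Real.pi * t : ℝ) * y)) := by
      rw [two_mul]
      nth_rewrite 2 [h1]
      rw [← integral_add hhi hhi.comp_neg]
      exact integral_congr_ae (Eventually.of_forall fun y => h2 y)
    set q : ℝ → ℂ := fun y => f y * Complex.cos ((2 * Real.pi * t : ℝ) * y) with hq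
    have hqi : Integrable q := by
      have := (hhi.add hhi.comp_neg).const_mul (1 / 2)
      refine this.congr (Eventually.of_forall fun y => ?_)
      have := h2 y
      simp only [hq, Pi.add_apply]
      rw [this]; ring
    have h4 : ∫ y, q y = 0 := by
      have hs : ∫ y, q y = (∫ y in Iic 0, q y) + ∫ y in Ioi 0, q y :=
        (intervalIntegral.integral_Iic_add_Ioi hqi.integrableOn hqi.integrableOn).symm
      have hn : ∫ y in Iic 0, q y = ∫ y in Ioi 0, q y := by
        have := integral_comp_neg_Iic (0 : ℝ) q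
        rw [neg_zero] at this
        rw [← this]
        refine setIntegral_congr_fun measurableSet_Iic fun y _ => ?_
        simp only [hq, hf, abs_neg]
        congr 1
        rw [← Complex.cos_neg]
        congr 1
        push_cast; ring
      have hz : ∫ y in Ioi 0, q y = 0 := by
        have := ct_zero hδ hc hi hm (2 * Real.pi * t)
        rw [ct] at this
        rw [← this]
        refine setIntegral_congr_fun measurableSet_Ioi fun y hy => ?_
        have hy' : 0 < y := hy
        simp only [hq, hf, abs_of_pos hy']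
      rw [hs, hn, hz, add_zero]
    rw [integral_const_mul, h4, mul_zero] at h3
    simpa using h3
  have hcv : ContinuousAt f v := by
    have h1 : ContinuousAt g |v| := by
      rw [abs_of_pos hv]; exact hc.continuousAt (Ioi_mem_nhds hv)
    exact h1.comp continuous_abs.continuousAt
  have hF' : Integrable (FourierTransform.fourier f) := by rw [hF]; exact integrable_zero _ _ _
  have hinv := hfi.fourierInv_fourier_eq hF' hcv
  rw [hF] at hinv
  have : f v = 0 := by
    rw [← hinv, Real.fourierInv_eq']
    simp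
  simpa [hf, abs_of_pos hv] using this

end

end Run7.h788.OM
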