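import Pool.Agent.Run7.h788.OM.Mom

/-!
# Bounded solutions of `W'' = (4 π² - lam / y²) W` and their Mellin transforms
-/

set_option autoImplicit false

open MeasureTheory Set Filter Topology Asymptotics

namespace Run7.h788.OM

/-- a bounded nonzero solution -/
structure Wh (lam : ℂ) (W W' : ℝ → ℂ) : Prop where
  ne : ∃ y, 0 < y ∧ W y ≠ 0
  bd : ∃ C : ℝ, ∀ y, 0 < y → ‖W y‖ ≤ C
  d1 : ∀ y : ℝ, 0 < y → HasDerivAt W (W' y) y
  d2 : ∀ y : ℝ, 0 < y → HasDerivAt W' ((4 * Real.pi ^ 2 - lam / (y : ℂ) ^ 2) * W y) y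

variable {lam : ℂ} {W W' : ℝ → ℂ}

lemma inner_mul_self (q z : ℂ) : inner ℝ z (q * z) = q.re * ‖z‖ ^ 2 := by
  rw [Complex.inner, Complex.sq_norm, Complex.normSq_apply]
  simp only [Complex.mul_re, Complex.mul_im, Complex.conj_re, Complex.conj_im]
  ring

lemma re_q_ge {y : ℝ} (hy : 1 + ‖lam‖ ≤ y) :
    2 ≤ ((4 * Real.pi ^ 2 - lam / (y : ℂ) ^ 2 : ℂ)).re := by
  have hl := norm_nonneg lam
  have hy1 : 1 ≤ y := by linarith
  have h1 : ‖lam / (y : ℂ) ^ 2‖ ≤ 1 := by
    rw [norm_div, norm_pow, Complex.norm_real, Real.norm_of_nonneg (by linarith : (0:ℝ) ≤ y),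
      div_le_one (by positivity)]
    nlinarith
  have h2 : (lam / (y : ℂ) ^ 2).re ≤ 1 := (Complex.re_le_norm _).trans h1
  have h3 : ((4 * Real.pi ^ 2 : ℂ)).re = 4 * Real.pi ^ 2 := by
    rw [show ((4 * Real.pi ^ 2 : ℂ)) = ((4 * Real.pi ^ 2 : ℝ) : ℂ) by push_cast; ring, Complex.ofReal_re]
  rw [Complex.sub_re, h3]
  nlinarith [Real.pi_gt_three]

/-- exponential decay -/
theorem Wh.decay (h : Wh lam W W') : ∃ C : ℝ, 0 < C ∧ ∀ y, 0 < y → ‖W y‖ ≤ C * Real.exp (-y) := by
  obtain ⟨B, hB⟩ := h.bd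
  set Y : ℝ := 1 + ‖lam‖ with hY
  have hl := norm_nonneg lam
  have hY0 : 0 < Y := by linarith
  have hB0 : 0 ≤ B := (norm_nonneg _).trans (hB Y hY0)
  set H : ℝ → ℝ := fun y => ‖W y‖ ^ 2 with hH
  set H1 : ℝ → ℝ := fun y => 2 * inner ℝ (W y) (W' y) with hH1
  have dH : ∀ y, 0 < y → HasDerivAt H (H1 y) y := fun y hy => (h.d1 y hy).norm_sq
  set H2 : ℝ → ℝ := fun y => 2 * (inner ℝ (W y) ((4 * Real.pi ^ 2 - lam / (y : ℂ) ^ 2) * W y) +
    inner ℝ (W' y) (W' y)) with hH2
  have dH1 : ∀ y, 0 < y → HasDerivAt H1 (H2 y) y := fun y hy =>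
    ((h.d1 y hy).inner ℝ (h.d2 y hy)).const_mul 2
  have hH2' : ∀ y, Y ≤ y → 4 * H y ≤ H2 y := by
    intro y hy
    have h1 := re_q_ge (lam := lam) hy
    simp only [hH2, hH, inner_mul_self, real_inner_self_eq_norm_sq]
    nlinarith [sq_nonneg ‖W y‖, sq_nonneg ‖W' y‖]
  have pos : ∀ y, Y ≤ y → 0 < y := fun y hy => hY0.trans_le hy
  -- p
  set p : ℝ → ℝ := fun y => H1 y + 2 * H y with hp
  have dp : ∀ y, 0 < y → HasDerivAt p (H2 y + 2 * H1 y) y := fun y hy =>
    (dH1 y hy).add ((dH y hy).const_mul 2)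
  have dexp : ∀ (c y : ℝ), HasDerivAt (fun y => Real.exp (c * y)) (Real.exp (c * y) * c) y := by
    intro c y
    have := ((hasDerivAt_id y).const_mul c).exp
    simpa using this
  have hP : MonotoneOn (fun y => p y * Real.exp (-2 * y)) (Ici Y) := by
    apply monotoneOn_of_deriv_nonneg (convex_Ici Y)
    · intro y hy
      exact ((dp y (pos y hy)).mul (dexp (-2) y)).continuousAt.continuousWithinAt
    · intro y hy
      rw [interior_Ici] at hy
      exact ((dp y (pos y (le_of_lt hy))).mul (dexp (-2) y)).differentiableAt.differentiableWithinAt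
    · intro y hy
      rw [interior_Ici] at hy
      have hy' := pos y (le_of_lt hy)
      have e := ((dp y hy').mul (dexp (-2) y)).deriv
      have e2 : deriv (fun y => p y * Real.exp (-2 * y)) y =
        (H2 y + 2 * H1 y) * Real.exp (-2 * y) + p y * (Real.exp (-2 * y) * -2) := e
      rw [e2]
      have h1 := hH2' y (le_of_lt hy)
      have h2 := (Real.exp_pos (-2 * y)).le
      have : (H2 y + 2 * H1 y) * Real.exp (-2 * y) + p y * (Real.exp (-2 * y) * -2) =
        (H2 y - 4 * H y) * Real.exp (-2 * y) := by simp only [hp]; ring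
      rw [this]
      exact mul_nonneg (by linarith) h2
  have hp0 : ∀ y, Y ≤ y → p y ≤ 0 := by
    intro y₀ hy₀
    by_contra hcon
    push Not at hcon
    set c : ℝ := p y₀ * Real.exp (-2 * y₀) with hc
    have hc0 : 0 < c := by positivity
    have hpc : ∀ y, y₀ ≤ y → c * Real.exp (2 * y) ≤ p y := by
      intro y hy
      have h1 := hP (show y₀ ∈ Ici Y from hy₀) (show y ∈ Ici Y from hy₀.trans hy) hy
      have h2 : p y = p y * Real.exp (-2 * y) * Real.exp (2 * y) := by
        rw [mul_assoc, ← Real.exp_add]; simp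
      rw [h2]
      exact mul_le_mul_of_nonneg_right h1 (Real.exp_pos _).le
    have hQ : MonotoneOn (fun y => H y * Real.exp (2 * y) - c / 4 * Real.exp (4 * y)) (Ici y₀) := by
      have dQ : ∀ y, 0 < y → HasDerivAt (fun y => H y * Real.exp (2 * y) - c / 4 * Real.exp (4 * y))
        ((H1 y * Real.exp (2 * y) + H y * (Real.exp (2 * y) * 2)) - c / 4 * (Real.exp (4 * y) * 4)) y := fun y hy =>
          ((dH y hy).mul (dexp 2 y)).sub ((dexp 4 y).const_mul (c / 4))
      apply monotoneOn_of_deriv_nonneg (convex_Ici y₀)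
      · intro y hy
        exact (dQ y (pos y (hy₀.trans hy))).continuousAt.continuousWithinAt
      · intro y hy
        rw [interior_Ici] at hy
        exact (dQ y (pos y (hy₀.trans (le_of_lt hy)))).differentiableAt.differentiableWithinAt
      · intro y hy
        rw [interior_Ici] at hy
        rw [(dQ y (pos y (hy₀.trans (le_of_lt hy)))).deriv]
        have h1 := hpc y (le_of_lt hy)
        have h2 : Real.exp (4 * y) = Real.exp (2 * y) * Real.exp (2 * y) := by
          rw [← Real.exp_add]; ring_nf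
        have h3 := (Real.exp_pos (2 * y))
        have : (H1 y * Real.exp (2 * y) + H y * (Real.exp (2 * y) * 2)) - c / 4 * (Real.exp (4 * y) * 4)
          = (p y - c * Real.exp (2 * y)) * Real.exp (2 * y) := by simp only [hp]; rw [h2]; ring
        rw [this]
        exact mul_nonneg (by linarith) h3.le
    -- contradiction
    set Q₀ : ℝ := H y₀ * Real.exp (2 * y₀) - c / 4 * Real.exp (4 * y₀) with hQ₀
    have hlow : ∀ y, y₀ ≤ y → c / 4 * Real.exp (4 * y) + Q₀ ≤ B ^ 2 * Real.exp (2 * y) := by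
      intro y hy
      have h1 := hQ (show y₀ ∈ Ici y₀ from le_refl y₀) (show y ∈ Ici y₀ from hy) hy
      have h2 : H y ≤ B ^ 2 := by
        have := hB y (pos y (hy₀.trans hy))
        exact pow_le_pow_left₀ (norm_nonneg _) this 2
      have h3 : H y * Real.exp (2 * y) ≤ B ^ 2 * Real.exp (2 * y) :=
        mul_le_mul_of_nonneg_right h2 (Real.exp_pos _).le
      simp only at h1
      linarith
    have ht : Tendsto (fun y : ℝ => Real.exp (2 * y)) atTop atTop :=
      Real.tendsto_exp_atTop.comp (tendsto_id.const_mul_atTop (by norm_num))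
    obtain ⟨y, hy1, hy2⟩ := ((ht.eventually_ge_atTop (4 / c * (B ^ 2 + |Q₀| + 1))).and
      (eventually_ge_atTop (max y₀ 0))).exists
    have hy3 := hlow y ((le_max_left _ _).trans hy2)
    have hy4 : (1 : ℝ) ≤ Real.exp (2 * y) := Real.one_le_exp (by
      have := (le_max_right y₀ 0).trans hy2; linarith)
    have h4 : Real.exp (4 * y) = Real.exp (2 * y) * Real.exp (2 * y) := by
      rw [← Real.exp_add]; ring_nf
    set E : ℝ := Real.exp (2 * y) with hE
    have h5 : B ^ 2 + |Q₀| + 1 ≤ c / 4 * E := by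
      have := mul_le_mul_of_nonneg_left hy1 (by positivity : 0 ≤ c / 4)
      calc B ^ 2 + |Q₀| + 1 = c / 4 * (4 / c * (B ^ 2 + |Q₀| + 1)) := by field_simp
        _ ≤ _ := this
    rw [h4] at hy3
    have h6 : (B ^ 2 + |Q₀| + 1) * E ≤ c / 4 * E * E := mul_le_mul_of_nonneg_right h5 (by linarith)
    have h7 : -|Q₀| ≤ Q₀ := neg_abs_le _
    nlinarith [abs_nonneg Q₀]
  have hA : AntitoneOn (fun y => H y * Real.exp (2 * y)) (Ici Y) := by
    have dA : ∀ y, 0 < y → HasDerivAt (fun y => H y * Real.exp (2 * y))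
        (H1 y * Real.exp (2 * y) + H y * (Real.exp (2 * y) * 2)) y := fun y hy =>
          ((dH y hy).mul (dexp 2 y))
    apply antitoneOn_of_deriv_nonpos (convex_Ici Y)
    · intro y hy
      exact (dA y (pos y hy)).continuousAt.continuousWithinAt
    · intro y hy
      rw [interior_Ici] at hy
      exact (dA y (pos y (le_of_lt hy))).differentiableAt.differentiableWithinAt
    · intro y hy
      rw [interior_Ici] at hy
      rw [(dA y (pos y (le_of_lt hy))).deriv]
      have h1 := hp0 y (le_of_lt hy)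
      have : (H1 y * Real.exp (2 * y) + H y * (Real.exp (2 * y) * 2)) = p y * Real.exp (2 * y) := by
        simp only [hp]; ring
      rw [this]
      exact mul_nonpos_of_nonpos_of_nonneg h1 (Real.exp_pos _).le
  refine ⟨(B + 1) * Real.exp Y, by positivity, fun y hy => ?_⟩
  rcases le_total Y y with hYy | hYy
  · have h1 := hA (show Y ∈ Ici Y from le_refl Y) (show y ∈ Ici Y from hYy) hYy
    simp only at h1
    have h2 : H Y ≤ B ^ 2 := pow_le_pow_left₀ (norm_nonneg _) (hB Y hY0) 2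
    have h3 : ‖W y‖ ^ 2 ≤ ((B + 1) * Real.exp Y * Real.exp (-y)) ^ 2 := by
      have e1 : ((B + 1) * Real.exp Y * Real.exp (-y)) ^ 2 =
        (B + 1) ^ 2 * Real.exp (2 * Y) * Real.exp (-(2 * y)) := by
        rw [mul_pow, mul_pow, ← Real.exp_nat_mul, ← Real.exp_nat_mul]; push_cast; ring_nf
      rw [e1]
      have e2 : ‖W y‖ ^ 2 = H y * Real.exp (2 * y) * Real.exp (-(2 * y)) := by
        rw [mul_assoc, ← Real.exp_add]; simp [hH]
      rw [e2]
      refine mul_le_mul_of_nonneg_right (h1.trans ?_) (Real.exp_pos _).le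
      refine mul_le_mul_of_nonneg_right (h2.trans ?_) (Real.exp_pos _).le
      nlinarith
    exact (sq_le_sq₀ (norm_nonneg _) (by positivity)).mp h3
  · calc ‖W y‖ ≤ B := hB y hy
      _ ≤ (B + 1) * 1 := by linarith
      _ ≤ (B + 1) * (Real.exp Y * Real.exp (-y)) := by
          refine mul_le_mul_of_nonneg_left ?_ (by linarith)
          rw [← Real.exp_add]
          exact Real.one_le_exp (by linarith)
      _ = _ := by ring

/-- Landau's inequality -/
lemma landau {F F' F'' : ℝ → ℂ} {y r A : ℝ} (hr : 0 < r)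
    (h1 : ∀ t ∈ Icc y (y + r), HasDerivAt F (F' t) t)
    (h2 : ∀ t ∈ Icc y (y + r), HasDerivAt F' (F'' t) t)
    (hA : ∀ t ∈ Icc y (y + r), ‖F'' t‖ ≤ A) :
    r * ‖F' y‖ ≤ ‖F (y + r)‖ + ‖F y‖ + A * r ^ 2 := by
  have hy : y ∈ Icc y (y + r) := ⟨le_refl _, by linarith⟩
  have hyr : y + r ∈ Icc y (y + r) := ⟨by linarith, le_refl _⟩
  have hA0 : 0 ≤ A := (norm_nonneg _).trans (hA y hy)
  have a1 : ∀ t ∈ Icc y (y + r), ‖F' t - F' y‖ ≤ A * r := by
    intro t ht
    have := (convex_Icc y (y + r)).norm_image_sub_le_of_norm_hasDerivWithin_le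
      (fun x hx => (h2 x hx).hasDerivWithinAt) hA hy ht
    refine this.trans (mul_le_mul_of_nonneg_left ?_ hA0)
    rw [Real.norm_of_nonneg (by linarith [ht.1])]
    linarith [ht.2]
  have a2 := (convex_Icc y (y + r)).norm_image_sub_le_of_norm_hasDerivWithin_le
      (f := fun t => F t - F' y * ((t : ℂ) - y)) (f' := fun t => F' t - F' y) (C := A * r)
      (fun x hx => by
        have e := ((h1 x hx).sub ((((hasDerivAt_id x).ofReal_comp).sub_const (y : ℂ)).const_mul (F' y)))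
        simp only [id_eq, Complex.ofReal_one, mul_one] at e
        exact e.hasDerivWithinAt) a1 hy hyr
  simp only [Complex.ofReal_add, add_sub_cancel_left, sub_self, mul_zero, sub_zero] at a2
  rw [Real.norm_of_nonneg hr.le] at a2
  have a3 : ‖F' y * (r : ℂ)‖ ≤ ‖F (y + r)‖ + ‖F y‖ + ‖F (y + r) - F' y * r - F y‖ := by
    have e : F' y * (r : ℂ) = F (y + r) - F y - (F (y + r) - F' y * r - F y) := by ring
    calc ‖F' y * (r : ℂ)‖ = ‖F (y + r) - F y - (F (y + r) - F' y * r - F y)‖ := by rw [← e]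
      _ ≤ ‖F (y + r) - F y‖ + ‖F (y + r) - F' y * r - F y‖ := norm_sub_le _ _
      _ ≤ _ := by gcongr; exact norm_sub_le _ _
  rw [norm_mul, Complex.norm_real, Real.norm_of_nonneg hr.le] at a3
  nlinarith

lemma norm_q_le {y : ℝ} (hy : 0 < y) :
    ‖(4 * Real.pi ^ 2 - lam / (y : ℂ) ^ 2 : ℂ)‖ ≤ 4 * Real.pi ^ 2 + ‖lam‖ / y ^ 2 := by
  refine (norm_sub_le _ _).trans (le_of_eq ?_)
  rw [norm_div, norm_pow, Complex.norm_real, Real.norm_of_nonneg hy.le]
  congr 1
  rw [show ((4 * Real.pi ^ 2 : ℂ)) = ((4 * Real.pi ^ 2 : ℝ) : ℂ) by push_cast; ring, Complex.norm_real,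
    Real.norm_of_nonneg (by positivity)]

/-- bounds of the derivative -/
theorem Wh.deriv_bd (h : Wh lam W W') : ∃ C : ℝ, 0 < C ∧
    (∀ y, 0 < y → y ≤ 1 → ‖W' y‖ ≤ C / y) ∧ (∀ y, 1 ≤ y → ‖W' y‖ ≤ C * Real.exp (-y)) := by
  obtain ⟨D, hD0, hD⟩ := h.decay
  set L : ℝ := 4 * Real.pi ^ 2 + ‖lam‖ with hL
  have hl := norm_nonneg lam
  have hL0 : 0 < L := by positivity
  have hDle : ∀ y, 0 < y → ‖W y‖ ≤ D := fun y hy => (hD y hy).trans (by
    have : Real.exp (-y) ≤ 1 := Real.exp_le_one_iff.mpr (by linarith)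
    nlinarith)
  refine ⟨2 * D + L * D, by positivity, fun y hy hy1 => ?_, fun y hy => ?_⟩
  · have key := landau (F := W) (F' := W') (F'' := fun y => (4 * Real.pi ^ 2 - lam / (y : ℂ) ^ 2) * W y)
      (y := y) (r := y) (A := L / y ^ 2 * D) hy (fun t ht => h.d1 t (hy.trans_le ht.1))
      (fun t ht => h.d2 t (hy.trans_le ht.1)) (fun t ht => by
        have ht0 : 0 < t := hy.trans_le ht.1
        rw [norm_mul]
        refine mul_le_mul ((norm_q_le ht0).trans ?_) (hDle t ht0) (norm_nonneg _) (by positivity)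
        have e1 : ‖lam‖ / t ^ 2 ≤ ‖lam‖ / y ^ 2 := by
          gcongr
          exact ht.1
        have e2 : 4 * Real.pi ^ 2 ≤ 4 * Real.pi ^ 2 / y ^ 2 := by
          rw [le_div_iff₀ (by positivity)]
          have : y ^ 2 ≤ 1 := by nlinarith
          nlinarith [Real.pi_pos, sq_nonneg Real.pi]
        rw [hL, add_div]
        linarith)
    rw [le_div_iff₀ hy]
    have e3 : L / y ^ 2 * D * y ^ 2 = L * D := by field_simp
    rw [e3] at key
    linarith [hDle y hy, hDle (y + y) (by linarith)]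
  · have hy0 : 0 < y := by linarith
    have key := landau (F := W) (F' := W') (F'' := fun y => (4 * Real.pi ^ 2 - lam / (y : ℂ) ^ 2) * W y)
      (y := y) (r := 1) (A := L * (D * Real.exp (-y))) one_pos (fun t ht => h.d1 t (hy0.trans_le ht.1))
      (fun t ht => h.d2 t (hy0.trans_le ht.1)) (fun t ht => by
        have ht0 : 0 < t := hy0.trans_le ht.1
        rw [norm_mul]
        refine mul_le_mul ((norm_q_le ht0).trans ?_) ((hD t ht0).trans ?_) (norm_nonneg _) (by positivity)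
        · rw [hL]
          have : ‖lam‖ / t ^ 2 ≤ ‖lam‖ := div_le_self hl (by nlinarith [ht.1])
          linarith
        · refine mul_le_mul_of_nonneg_left (Real.exp_le_exp.mpr ?_) hD0.le
          linarith [ht.1])
    have e1 := hD y hy0
    have e2 := hD (y + 1) (by linarith)
    have e3 : Real.exp (-(y + 1)) ≤ Real.exp (-y) := Real.exp_le_exp.mpr (by linarith)
    nlinarith [Real.exp_pos (-y)]

lemma Wh.contW (h : Wh lam W W') : ContinuousOn W (Ioi 0) :=
  fun y hy => (h.d1 y hy).continuousAt.continuousWithinAt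

lemma Wh.bigO_top (h : Wh lam W W') : W =O[atTop] fun t => Real.exp (-1 * t) := by
  obtain ⟨D, hD0, hD⟩ := h.decay
  refine IsBigO.of_bound D ?_
  filter_upwards [eventually_gt_atTop 0] with y hy
  rw [Real.norm_of_nonneg (Real.exp_pos _).le]
  simpa using hD y hy

lemma Wh.bigO_zero (h : Wh lam W W') : W =O[𝓝[>] 0] fun t => t ^ (-(0:ℝ)) := by
  obtain ⟨B, hB⟩ := h.bd
  refine IsBigO.of_bound B ?_
  filter_upwards [self_mem_nhdsWithin] with y hy
  simpa using hB y hy

lemma Wh.locInt (h : Wh lam W W') : LocallyIntegrableOn W (Ioi 0) :=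
  h.contW.locallyIntegrableOn measurableSet_Ioi

lemma Wh.conv (h : Wh lam W W') {w : ℂ} (hw : 0 < w.re) : MellinConvergent W w :=
  mellinConvergent_of_isBigO_rpow_exp one_pos h.locInt h.bigO_top h.bigO_zero hw

lemma Wh.diffAt (h : Wh lam W W') {w : ℂ} (hw : 0 < w.re) : DifferentiableAt ℂ (mellin W) w :=
  mellin_differentiableAt_of_isBigO_rpow_exp one_pos h.locInt h.bigO_top h.bigO_zero hw

/-- The Mellin transform satisfies a recurrence. -/
theorem Wh.recur (h : Wh lam W W') {w : ℂ} (hw : 0 < w.re) :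
    4 * Real.pi ^ 2 * mellin W (w + 2) = (w ^ 2 + w + lam) * mellin W w := by
  obtain ⟨D, hD0, hD⟩ := h.decay
  obtain ⟨E, hE0, hE1, hE2⟩ := h.deriv_bd
  have hw2 : 0 < (w + 2).re := by simp; linarith
  set Φ : ℝ → ℂ := fun y => W' y * (y : ℂ) ^ (w + 1) - (w + 1) * (W y * (y : ℂ) ^ w) with hΦ
  set Ψ : ℝ → ℂ := fun y => 4 * Real.pi ^ 2 * ((y : ℂ) ^ (w + 2 - 1) • W y) -
    (w ^ 2 + w + lam) * ((y : ℂ) ^ (w - 1) • W y) with hΨ
  have dpow : ∀ (a : ℂ) (y : ℝ), 0 < y → HasDerivAt (fun y : ℝ => (y : ℂ) ^ a) (a * (y : ℂ) ^ (a - 1)) y := by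
    intro a y hy
    have h1 := (hasDerivAt_id (y : ℂ)).cpow_const (c := a) (Or.inl (by simpa using hy))
    have h2 := h1.comp_ofReal
    simpa using h2
  have dΦ : ∀ y, 0 < y → HasDerivAt Φ (Ψ y) y := by
    intro y hy
    have e := ((h.d2 y hy).mul (dpow (w + 1) y hy)).sub
      (((h.d1 y hy).mul (dpow w y hy)).const_mul (w + 1))
    refine e.congr_deriv ?_
    simp only [hΨ, smul_eq_mul]
    have hy' : (y : ℂ) ≠ 0 := by exact_mod_cast hy.ne'
    have p1 : (y : ℂ) ^ (w + 1) = (y : ℂ) ^ (w - 1) * (y : ℂ) ^ 2 := by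
      rw [← Complex.cpow_natCast, ← Complex.cpow_add _ _ hy']; congr 1; push_cast; ring
    have p2 : (y : ℂ) ^ (w + 2 - 1) = (y : ℂ) ^ (w - 1) * (y : ℂ) ^ 2 := by
      rw [← Complex.cpow_natCast, ← Complex.cpow_add _ _ hy']; congr 1; push_cast; ring
    have p3 : (y : ℂ) ^ w = (y : ℂ) ^ (w - 1) * (y : ℂ) := by
      have e3 := Complex.cpow_add (w - 1) 1 hy'
      rw [Complex.cpow_one, sub_add_cancel] at e3
      exact e3
    have p4 : w + 1 - 1 = w := by ring
    rw [p1, p2, p4, p3]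
    field_simp
    ring
  have hint : IntegrableOn Ψ (Ioi 0) :=
    ((h.conv hw2).const_mul (4 * Real.pi ^ 2)).sub ((h.conv hw).const_mul (w ^ 2 + w + lam))
  have hpn : ∀ (a : ℂ) (y : ℝ), 0 < y → ‖(y : ℂ) ^ a‖ = y ^ a.re := fun a y hy =>
    Complex.norm_cpow_eq_rpow_re_of_pos hy a
  have hnΦ : ∀ y, 0 < y → ‖Φ y‖ ≤ ‖W' y‖ * y ^ (w.re + 1) + ‖w + 1‖ * (‖W y‖ * y ^ w.re) := by
    intro y hy
    refine (norm_sub_le _ _).trans (le_of_eq ?_)
    rw [norm_mul, norm_mul, norm_mul, hpn _ _ hy, hpn _ _ hy]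
    simp
  have hexp : ∀ a : ℝ, Tendsto (fun y : ℝ => y ^ a * Real.exp (-y)) atTop (𝓝 0) := by
    intro a
    have := tendsto_rpow_mul_exp_neg_mul_atTop_nhds_zero a 1 one_pos
    simpa using this
  have htop : Tendsto Φ atTop (𝓝 0) := by
    have hb : Tendsto (fun y : ℝ => E * (y ^ (w.re + 1) * Real.exp (-y)) +
        ‖w + 1‖ * D * (y ^ w.re * Real.exp (-y))) atTop (𝓝 0) := by
      have := ((hexp (w.re + 1)).const_mul E).add ((hexp w.re).const_mul (‖w + 1‖ * D))
      simpa using this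
    refine squeeze_zero_norm' ?_ hb
    filter_upwards [eventually_ge_atTop 1] with y hy
    have hy0 : 0 < y := by linarith
    refine (hnΦ y hy0).trans ?_
    have i1 := hE2 y hy
    have i2 := hD y hy0
    have i3 : 0 ≤ y ^ (w.re + 1) := Real.rpow_nonneg hy0.le _
    have i4 : 0 ≤ y ^ w.re := Real.rpow_nonneg hy0.le _
    calc ‖W' y‖ * y ^ (w.re + 1) + ‖w + 1‖ * (‖W y‖ * y ^ w.re)
        ≤ (E * Real.exp (-y)) * y ^ (w.re + 1) + ‖w + 1‖ * ((D * Real.exp (-y)) * y ^ w.re) := by gcongr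
      _ = _ := by ring
  have hzero : Tendsto Φ (𝓝[>] 0) (𝓝 0) := by
    have hr : Tendsto (fun y : ℝ => y ^ w.re) (𝓝[>] 0) (𝓝 0) := by
      have := (Real.continuousAt_rpow_const 0 w.re (Or.inr hw.le)).tendsto
      rw [Real.zero_rpow hw.ne'] at this
      exact this.mono_left nhdsWithin_le_nhds
    have hb : Tendsto (fun y : ℝ => (E + ‖w + 1‖ * D) * y ^ w.re) (𝓝[>] 0) (𝓝 0) := by
      have := hr.const_mul (E + ‖w + 1‖ * D)
      simpa using this
    refine squeeze_zero_norm' ?_ hb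
    filter_upwards [Ioc_mem_nhdsGT (zero_lt_one' ℝ)] with y hy
    have hy0 : 0 < y := hy.1
    refine (hnΦ y hy0).trans ?_
    have i1 := hE1 y hy0 hy.2
    have i2 : ‖W y‖ ≤ D := (hD y hy0).trans (by
      have : Real.exp (-y) ≤ 1 := Real.exp_le_one_iff.mpr (by linarith)
      nlinarith)
    have i4 : 0 ≤ y ^ w.re := Real.rpow_nonneg hy0.le _
    have i5 : ‖W' y‖ * y ≤ E := by rwa [le_div_iff₀ hy0] at i1
    rw [Real.rpow_add_one hy0.ne']
    calc ‖W' y‖ * (y ^ w.re * y) + ‖w + 1‖ * (‖W y‖ * y ^ w.re)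
        = (‖W' y‖ * y) * y ^ w.re + ‖w + 1‖ * (‖W y‖ * y ^ w.re) := by ring
      _ ≤ E * y ^ w.re + ‖w + 1‖ * (D * y ^ w.re) := by gcongr
      _ = _ := by ring
  -- the fundamental theorem
  set G : ℝ → ℂ := Function.update Φ 0 0 with hG
  have hGe : ∀ y, 0 < y → G y = Φ y := fun y hy => by simp [hG, hy.ne']
  have hcont : ContinuousWithinAt G (Ici 0) 0 := by
    rw [← continuousWithinAt_Ioi_iff_Ici]
    unfold ContinuousWithinAt
    have : G 0 = 0 := by simp [hG]
    rw [this]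
    refine hzero.congr' ?_
    filter_upwards [self_mem_nhdsWithin] with y hy
    exact (hGe y hy).symm
  have hder : ∀ x ∈ Ioi (0 : ℝ), HasDerivAt G (Ψ x) x := by
    intro x hx
    refine (dΦ x hx).congr_of_eventuallyEq ?_
    filter_upwards [Ioi_mem_nhds (show (0:ℝ) < x from hx)] with y hy
    exact hGe y hy
  have hlim : Tendsto G atTop (𝓝 0) := by
    refine htop.congr' ?_
    filter_upwards [eventually_gt_atTop 0] with y hy
    exact (hGe y hy).symm
  have key := integral_Ioi_of_hasDerivAt_of_tendsto hcont hder hint hlim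
  have h0 : G 0 = 0 := by simp [hG]
  rw [h0, sub_zero] at key
  simp only [hΨ] at key
  rw [integral_sub ((h.conv hw2).const_mul (4 * Real.pi ^ 2)) ((h.conv hw).const_mul (w ^ 2 + w + lam)),
    integral_const_mul, integral_const_mul] at key
  have := sub_eq_zero.mp key
  exact this

/-- The Mellin transform has no zeros. -/
theorem Wh.mellin_ne (h : Wh lam W W') {w : ℂ} (hw : 0 < w.re) : mellin W w ≠ 0 := by
  intro h0
  have hpi : (4 * Real.pi ^ 2 : ℂ) ≠ 0 := by simp [Real.pi_ne_zero]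
  have hk : ∀ k : ℕ, mellin W (w + 2 * k) = 0 := by
    intro k
    induction k with
    | zero => simpa using h0
    | succ k ih =>
      have hre : 0 < (w + 2 * k).re := by
        simp only [Complex.add_re, Complex.mul_re, Complex.re_ofNat, Complex.natCast_re, Complex.im_ofNat, Complex.natCast_im, mul_zero, sub_zero]
        positivity
      have h1 := h.recur hre
      rw [ih, mul_zero] at h1
      have h2 := (mul_eq_zero.mp h1).resolve_left hpi
      rw [← h2]; congr 1; push_cast; ring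
  obtain ⟨D, hD0, hD⟩ := h.decay
  obtain ⟨y₀, hy₀, hne⟩ := h.ne
  set g : ℝ → ℂ := fun y => (y : ℂ) ^ (w - 1) • W y with hg
  have hcpow : ContinuousOn (fun y : ℝ => (y : ℂ) ^ (w - 1)) (Ioi 0) := by
    intro y hy
    have h1 := (hasDerivAt_id (y : ℂ)).cpow_const (c := w - 1) (Or.inl (by simpa using hy))
    exact h1.comp_ofReal.continuousAt.continuousWithinAt
  have hgc : ContinuousOn g (Ioi 0) := hcpow.smul h.contW
  have hgi : IntegrableOn (fun y => ‖g y‖ * Real.exp (1 / 2 * y)) (Ioi 0) := by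
    set f : ℝ → ℂ := fun y => W y * ((Real.exp (1 / 2 * y) : ℝ) : ℂ) with hf
    have hfc : ContinuousOn f (Ioi 0) := h.contW.mul (Continuous.continuousOn (by fun_prop))
    have hft : f =O[atTop] fun t => Real.exp (-(1 / 2) * t) := by
      refine IsBigO.of_bound D ?_
      filter_upwards [eventually_gt_atTop 0] with y hy
      rw [Real.norm_of_nonneg (Real.exp_pos _).le, hf, norm_mul, Complex.norm_real,
        Real.norm_of_nonneg (Real.exp_pos _).le]
      calc ‖W y‖ * Real.exp (1 / 2 * y) ≤ (D * Real.exp (-y)) * Real.exp (1 / 2 * y) := by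
            gcongr; exact hD y hy
        _ = D * Real.exp (-(1 / 2) * y) := by
            rw [mul_assoc, ← Real.exp_add]; ring_nf
    have hfb : f =O[𝓝[>] 0] fun t => t ^ (-(0:ℝ)) := by
      refine IsBigO.of_bound (D * Real.exp 1) ?_
      filter_upwards [Ioc_mem_nhdsGT (zero_lt_one' ℝ)] with y hy
      rw [hf, norm_mul, Complex.norm_real, Real.norm_of_nonneg (Real.exp_pos _).le]
      have i1 : ‖W y‖ ≤ D := (hD y hy.1).trans (by
        have : Real.exp (-y) ≤ 1 := Real.exp_le_one_iff.mpr (by linarith [hy.1])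
        nlinarith)
      have i2 : Real.exp (1 / 2 * y) ≤ Real.exp 1 := Real.exp_le_exp.mpr (by linarith [hy.2])
      have i3 : ‖y ^ (-(0:ℝ))‖ = 1 := by simp
      rw [i3, mul_one]
      gcongr
    have := mellinConvergent_of_isBigO_rpow_exp (a := 1 / 2) (b := 0) (s := w) (by norm_num)
      (hfc.locallyIntegrableOn measurableSet_Ioi) hft hfb hw
    have this' : IntegrableOn (fun y : ℝ => ‖(y : ℂ) ^ (w - 1) • f y‖) (Ioi 0) := this.norm
    refine this'.congr_fun (fun y hy => ?_) measurableSet_Ioi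
    simp only [hf, hg, norm_smul, norm_mul, Complex.norm_real, Real.norm_of_nonneg (Real.exp_pos _).le]
    ring
  have hm : ∀ k : ℕ, ∫ y in Ioi (0 : ℝ), g y * (y : ℂ) ^ (2 * k) = 0 := by
    intro k
    rw [← hk k, mellin]
    refine setIntegral_congr_fun measurableSet_Ioi fun y hy => ?_
    have hy' : (y : ℂ) ≠ 0 := by
      have : (0:ℝ) < y := hy
      exact_mod_cast this.ne'
    simp only [hg, smul_eq_mul]
    rw [show w + 2 * (k : ℂ) - 1 = (w - 1) + ((2 * k : ℕ) : ℂ) by push_cast; ring,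
      Complex.cpow_add _ _ hy', Complex.cpow_natCast]
    ring
  have hz := moments_zero (g := g) (δ := 1 / 2) (by norm_num) hgc hgi hm hy₀
  simp only [hg, smul_eq_mul, mul_eq_zero] at hz
  rcases hz with hz | hz
  · have hy' : (y₀ : ℂ) ≠ 0 := by exact_mod_cast hy₀.ne'
    rw [Complex.cpow_eq_zero_iff] at hz
    exact hy' hz.1
  · exact hne hz

lemma Wh.q_ne (h : Wh lam W W') {w : ℂ} (hw : 0 < w.re) : w ^ 2 + w + lam ≠ 0 := by
  intro h0
  have h1 := h.recur hw
  rw [h0, zero_mul] at h1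
  have hpi : (4 * Real.pi ^ 2 : ℂ) ≠ 0 := by simp [Real.pi_ne_zero]
  have h2 := (mul_eq_zero.mp h1).resolve_left hpi
  exact h.mellin_ne (w := w + 2) (by simp; linarith) h2

/-- the approximations of the inverse -/
noncomputable def Rk (lam : ℂ) (W : ℝ → ℂ) (k : ℕ) (w : ℂ) : ℂ :=
  (∏ j ∈ Finset.range k, ((w + 2 * j) ^ 2 + (w + 2 * j) + lam) / (4 * Real.pi ^ 2)) /
    mellin W (w + 2 * k)

lemma re_add (w : ℂ) (k : ℕ) : (w + 2 * (k : ℂ)).re = w.re + 2 * k := by
  simp

lemma Wh.Rk_succ (h : Wh lam W W') {w : ℂ} {k : ℕ} (hw : 0 < w.re + 2 * k) :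
    Rk lam W (k + 1) w = Rk lam W k w := by
  have hre : 0 < (w + 2 * (k : ℂ)).re := by rw [re_add]; exact hw
  have hpi : (4 * Real.pi ^ 2 : ℂ) ≠ 0 := by simp [Real.pi_ne_zero]
  have h1 := h.recur hre
  have h2 := h.q_ne hre
  have h3 := h.mellin_ne hre
  have e : mellin W (w + 2 * ((k + 1 : ℕ) : ℂ)) =
    ((w + 2 * k) ^ 2 + (w + 2 * k) + lam) / (4 * Real.pi ^ 2) * mellin W (w + 2 * k) := by
    rw [show w + 2 * ((k + 1 : ℕ) : ℂ) = w + 2 * k + 2 by push_cast; ring]
    field_simp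
    linear_combination h1
  have h4 : ((w + 2 * k) ^ 2 + (w + 2 * k) + lam) / (4 * Real.pi ^ 2) ≠ 0 := div_ne_zero h2 hpi
  rw [Rk, Rk, Finset.prod_range_succ, e]
  generalize ((w + 2 * (k : ℂ)) ^ 2 + (w + 2 * k) + lam) / (4 * Real.pi ^ 2) = Q at h4 ⊢
  rw [mul_comm Q, mul_div_mul_right _ _ h4]

lemma Wh.Rk_le (h : Wh lam W W') {w : ℂ} {k l : ℕ} (hw : 0 < w.re + 2 * k) (hkl : k ≤ l) :
    Rk lam W l w = Rk lam W k w := by
  induction l, hkl using Nat.le_induction with
  | base => rfl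
  | succ l hl ih =>
    rw [h.Rk_succ, ih]
    have : (k : ℝ) ≤ l := by exact_mod_cast hl
    linarith

lemma Wh.Rk_eq (h : Wh lam W W') {w : ℂ} {k l : ℕ} (hk : 0 < w.re + 2 * k) (hl : 0 < w.re + 2 * l) :
    Rk lam W k w = Rk lam W l w := by
  rcases le_total k l with hkl | hkl
  · exact (h.Rk_le hk hkl).symm
  · exact h.Rk_le hl hkl

lemma Wh.Rk_diff (h : Wh lam W W') {w : ℂ} {k : ℕ} (hw : 0 < w.re + 2 * k) :
    DifferentiableAt ℂ (Rk lam W k) w := by
  have hre : 0 < (w + 2 * (k : ℂ)).re := by rw [re_add]; exact hw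
  unfold Rk
  refine DifferentiableAt.div (by fun_prop) ?_ (h.mellin_ne hre)
  exact DifferentiableAt.comp w (g := mellin W) (f := fun w : ℂ => w + 2 * (k : ℂ)) (h.diffAt hre) (by fun_prop)

/-- The inverse of the Mellin transform extends to an entire function. -/
theorem Wh.entire_inv (h : Wh lam W W') : ∃ R : ℂ → ℂ, Differentiable ℂ R ∧
    ∀ w : ℂ, 0 < w.re → R w * mellin W w = 1 := by
  have hK : ∀ w : ℂ, 0 < w.re + 2 * ((⌊|w.re|⌋₊ + 1 : ℕ) : ℝ) := by
    intro w
    have h1 := Nat.lt_floor_add_one |w.re|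
    have h2 := neg_abs_le w.re
    push_cast
    have h3 : (0 : ℝ) ≤ (⌊|w.re|⌋₊ : ℝ) := by positivity
    linarith [abs_nonneg w.re]
  refine ⟨fun w => Rk lam W (⌊|w.re|⌋₊ + 1) w, fun w => ?_, fun w hw => ?_⟩
  · refine (h.Rk_diff (hK w)).congr_of_eventuallyEq ?_
    have ho : IsOpen {v : ℂ | 0 < v.re + 2 * ((⌊|w.re|⌋₊ + 1 : ℕ) : ℝ)} :=
      isOpen_lt continuous_const (by fun_prop)
    filter_upwards [ho.mem_nhds (hK w)] with v hv
    exact h.Rk_eq (hK v) hv
  · have h1 : Rk lam W (⌊|w.re|⌋₊ + 1) w = Rk lam W 0 w := h.Rk_eq (hK w) (by simpa using hw)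
    change Rk lam W (⌊|w.re|⌋₊ + 1) w * mellin W w = 1
    rw [h1, Rk]
    simp only [Finset.range_zero, Finset.prod_empty, Nat.cast_zero, mul_zero, add_zero]
    exact one_div_mul_cancel (h.mellin_ne hw)

end Run7.h788.OM
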