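import Pool.Agent.Run7.h488.OM.W2
import Pool.Agent.Run7.h788.OM.Wh
import Pool.Agent.Run7.h788.OM.Mel
import Pool.Agent.Run7.h788.OM.Gs

/-!
# Twisted L-functions of odd Hecke-Maass forms vanish at the centre
-/

set_option autoImplicit false

open UpperHalfPlane hiding I
open MeasureTheory Complex Filter Topology Set
open scoped MatrixGroups
open Run7.h992.OM

namespace Run7.h788.OM

/-- invariance, on the complex plane -/
lemma inv_plane {u : ℍ → ℂ} (hu : OddInv u) (g : SL(2, ℤ)) {z : ℂ} (hz : 0 < z.im) :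
    u (ofComplex (((g 0 0 : ℂ) * z + g 0 1) / ((g 1 0 : ℂ) * z + g 1 1))) = u (ofComplex z) := by
  have h1 := coe_specialLinearGroup_apply g (⟨z, hz⟩ : ℍ)
  have h2 : (((g 0 0 : ℂ) * z + g 0 1) / ((g 1 0 : ℂ) * z + g 1 1)) = ((g • (⟨z, hz⟩ : ℍ) : ℍ) : ℂ) := by
    rw [h1]; simp
  rw [h2, ofComplex_apply, hu.inv, ofComplex_apply_of_im_pos hz]

/-- the matrix that moves `v / q + i / (q² y)` to `w / q + i y`, `v w ≡ -1` -/
lemma exists_mat {q : ℕ} [NeZero q] {v w : ZMod q} (h : v * w = -1) : ∃ g : SL(2, ℤ),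
    g 0 0 = w.val ∧ g 1 0 = q ∧ g 1 1 = -v.val ∧ (v.val : ℤ) * w.val + 1 = -(q * g 0 1) := by
  have h1 : ((v.val * w.val + 1 : ℤ) : ZMod q) = 0 := by
    push_cast
    rw [ZMod.natCast_val, ZMod.natCast_val, ZMod.cast_id']
    simp [h]
  rw [ZMod.intCast_zmod_eq_zero_iff_dvd] at h1
  obtain ⟨k, hk⟩ := h1
  refine ⟨⟨!![(w.val : ℤ), -k; q, -v.val], ?_⟩, by simp, by simp, by simp, ?_⟩
  · rw [Matrix.det_fin_two_of]; linarith
  · change (v.val : ℤ) * w.val + 1 = -(q * (-k))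
    linarith

/-- the point `v / q + i y` -/
noncomputable def pt {q : ℕ} (v : ZMod q) (y : ℝ) : ℂ := (((v.val : ℝ) / q : ℝ) : ℂ) + y * I

lemma pt_im {q : ℕ} (v : ZMod q) (y : ℝ) : (pt v y).im = y := by simp [pt]

/-- the x-derivative -/
noncomputable def Ux (u : ℍ → ℂ) (z : ℂ) : ℂ := deriv (fun t : ℝ => u (ofComplex (z + t))) 0

section
variable {q : ℕ} [NeZero q] {u : ℍ → ℂ}

lemma q_pos : (0 : ℝ) < q := by
  have := NeZero.pos q
  exact_mod_cast this

lemma moeb_pt {v w : ZMod q} {g : SL(2, ℤ)} (h1 : g 0 0 = w.val) (h2 : g 1 0 = q)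
    (h3 : g 1 1 = -v.val) (h4 : (v.val : ℤ) * w.val + 1 = -(q * g 0 1)) {y : ℝ} (hy : 0 < y) :
    (g 1 0 : ℂ) * pt v (((q : ℝ) ^ 2)⁻¹ * y⁻¹) + g 1 1 = I / (q * y) ∧
    ((g 0 0 : ℂ) * pt v (((q : ℝ) ^ 2)⁻¹ * y⁻¹) + g 0 1) /
      ((g 1 0 : ℂ) * pt v (((q : ℝ) ^ 2)⁻¹ * y⁻¹) + g 1 1) = pt w y := by
  have hq : (q : ℂ) ≠ 0 := by exact_mod_cast (NeZero.ne q)
  have hy' : (y : ℂ) ≠ 0 := by exact_mod_cast hy.ne'
  have h4' : (v.val : ℂ) * w.val + 1 = -(q * (g 0 1 : ℂ)) := by exact_mod_cast h4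
  have e1 : (g 1 0 : ℂ) * pt v (((q : ℝ) ^ 2)⁻¹ * y⁻¹) + g 1 1 = I / (q * y) := by
    rw [h2, h3, pt]
    push_cast
    field_simp
    ring
  refine ⟨e1, ?_⟩
  rw [e1, h1, pt, pt, div_eq_iff (by simp [hq, hy', I_ne_zero])]
  push_cast
  field_simp
  linear_combination ((q : ℂ) * y) * h4' - ((q : ℂ) * y) * I_sq

lemma move (hu : OddInv u) {v w : ZMod q} (h : v * w = -1) {y : ℝ} (hy : 0 < y) :
    u (ofComplex (pt v (((q : ℝ) ^ 2)⁻¹ * y⁻¹))) = u (ofComplex (pt w y)) := by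
  obtain ⟨g, h1, h2, h3, h4⟩ := exists_mat h
  have hq := q_pos (q := q)
  rw [← (moeb_pt h1 h2 h3 h4 hy).2, inv_plane hu g]
  rw [pt_im]; positivity

lemma ux_of_diff {z : ℂ} {D : ℂ →L[ℝ] ℂ} (hD : HasFDerivAt (fun z : ℂ => u (ofComplex z)) D z) :
    Ux u z = D 1 := by
  have h1 : HasDerivAt (fun t : ℝ => z + (t : ℂ)) 1 0 := by
    have := ((hasDerivAt_id (0 : ℝ)).ofReal_comp).const_add z
    simpa using this
  have h2 : HasFDerivAt (fun z : ℂ => u (ofComplex z)) D (z + ((0 : ℝ) : ℂ)) := by simpa using hD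
  exact (h2.comp_hasDerivAt (0 : ℝ) h1).deriv

lemma move_x (hu : OddInv u) (hs : ContDiffOn ℝ 2 (fun z : ℂ => u (ofComplex z)) {z : ℂ | 0 < z.im})
    {v w : ZMod q} (h : v * w = -1) {y : ℝ} (hy : 0 < y) :
    Ux u (pt v (((q : ℝ) ^ 2)⁻¹ * y⁻¹)) = -((q : ℂ) ^ 2 * y ^ 2) * Ux u (pt w y) := by
  obtain ⟨g, h1, h2, h3, h4⟩ := exists_mat h
  obtain ⟨m1, m2⟩ := moeb_pt h1 h2 h3 h4 hy
  have hq := q_pos (q := q)
  have hqc : (q : ℂ) ≠ 0 := by exact_mod_cast (NeZero.ne q)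
  have hyc : (y : ℂ) ≠ 0 := by exact_mod_cast hy.ne'
  set z₀ : ℂ := pt v (((q : ℝ) ^ 2)⁻¹ * y⁻¹) with hz₀
  have hz₀im : 0 < z₀.im := by rw [hz₀, pt_im]; positivity
  have hopen : IsOpen {z : ℂ | 0 < z.im} := isOpen_lt continuous_const Complex.continuous_im
  have hdiff : ∀ z : ℂ, 0 < z.im → DifferentiableAt ℝ (fun z : ℂ => u (ofComplex z)) z := fun z hz =>
    (hs.differentiableOn (by norm_num)).differentiableAt (hopen.mem_nhds hz)
  have hw : 0 < (pt w y).im := by rw [pt_im]; exact hy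
  set D := fderiv ℝ (fun z : ℂ => u (ofComplex z)) (pt w y) with hD
  have hDw : HasFDerivAt (fun z : ℂ => u (ofComplex z)) D (pt w y) := (hdiff _ hw).hasFDerivAt
  rw [ux_of_diff hDw, Ux]
  -- the Moebius map along the line
  have hden : (g 1 0 : ℂ) * z₀ + g 1 1 ≠ 0 := by rw [m1]; simp [hqc, hyc, I_ne_zero]
  have hdet : (g 0 0 : ℂ) * g 1 1 - g 0 1 * g 1 0 = 1 := by
    have := g.det_coe
    rw [Matrix.det_fin_two] at this
    exact_mod_cast this
  have hmo : HasDerivAt (fun z : ℂ => ((g 0 0 : ℂ) * z + g 0 1) / ((g 1 0 : ℂ) * z + g 1 1))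
      (-((q : ℂ) ^ 2 * y ^ 2)) z₀ := by
    have a1 : HasDerivAt (fun z : ℂ => (g 0 0 : ℂ) * z + g 0 1) (g 0 0 : ℂ) z₀ := by
      simpa using ((hasDerivAt_id z₀).const_mul (g 0 0 : ℂ)).add_const (g 0 1 : ℂ)
    have a2 : HasDerivAt (fun z : ℂ => (g 1 0 : ℂ) * z + g 1 1) (g 1 0 : ℂ) z₀ := by
      simpa using ((hasDerivAt_id z₀).const_mul (g 1 0 : ℂ)).add_const (g 1 1 : ℂ)
    refine (a1.div a2 hden).congr_deriv ?_
    have e : (g 0 0 : ℂ) * ((g 1 0 : ℂ) * z₀ + g 1 1) - ((g 0 0 : ℂ) * z₀ + g 0 1) * (g 1 0 : ℂ) = 1 := by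
      linear_combination hdet
    rw [e, m1]
    field_simp
    rw [I_sq]; ring
  have hline : HasDerivAt (fun t : ℝ => ((g 0 0 : ℂ) * (z₀ + t) + g 0 1) / ((g 1 0 : ℂ) * (z₀ + t) + g 1 1))
      (-((q : ℂ) ^ 2 * y ^ 2)) (0 : ℝ) := by
    have h5 : HasDerivAt (fun s : ℂ => ((g 0 0 : ℂ) * (z₀ + s) + g 0 1) / ((g 1 0 : ℂ) * (z₀ + s) + g 1 1))
        (-((q : ℂ) ^ 2 * y ^ 2)) ((0 : ℝ) : ℂ) := by
      have := HasDerivAt.comp_const_add z₀ ((0 : ℝ) : ℂ) (f := fun z : ℂ => ((g 0 0 : ℂ) * z + g 0 1) / ((g 1 0 : ℂ) * z + g 1 1)) (f' := (-((q : ℂ) ^ 2 * y ^ 2)))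
        (by simpa using hmo)
      exact this
    exact h5.comp_ofReal
  have hfun : (fun t : ℝ => u (ofComplex (z₀ + t))) =
      fun t : ℝ => u (ofComplex (((g 0 0 : ℂ) * (z₀ + t) + g 0 1) / ((g 1 0 : ℂ) * (z₀ + t) + g 1 1))) := by
    ext t
    rw [inv_plane hu g]
    simpa using hz₀im
  rw [hfun]
  have hDw' : HasFDerivAt (fun z : ℂ => u (ofComplex z)) D
      (((g 0 0 : ℂ) * (z₀ + ((0 : ℝ) : ℂ)) + g 0 1) / ((g 1 0 : ℂ) * (z₀ + ((0 : ℝ) : ℂ)) + g 1 1)) := by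
    rw [ofReal_zero, add_zero, m2]; exact hDw
  have hfin := hDw'.comp_hasDerivAt (0 : ℝ) hline
  have e6 : D (-((q : ℂ) ^ 2 * y ^ 2)) = -((q : ℂ) ^ 2 * y ^ 2) * D 1 := by
    have : (-((q : ℂ) ^ 2 * y ^ 2)) = (-((q : ℝ) ^ 2 * y ^ 2)) • (1 : ℂ) := by
      rw [real_smul]; push_cast; ring
    conv_lhs => rw [this]
    rw [map_smul, real_smul]; push_cast; ring
  rw [← e6]
  exact hfin.deriv

end

/-! ### the series -/

section
variable {u : ℍ → ℂ} {lam : ℂ} {c : ℕ → ℂ} {W W' : ℝ → ℂ}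

/-- normalised coefficients -/
noncomputable def an (c : ℕ → ℂ) (n : ℕ) : ℂ := c n / (Real.sqrt n : ℝ)

lemma an_zero (c : ℕ → ℂ) : an c 0 = 0 := by simp [an]

lemma an_bound (h : HM u lam c) (hne : ∃ y, 0 < y ∧ W y ≠ 0)
    (hW : ∀ n : ℕ, 1 ≤ n → ∀ y : ℝ, 0 < y →
        ∫ x in (0 : ℝ)..1, u (ofComplex (x + y * Complex.I)) *
          Complex.exp (-(2 * Real.pi * Complex.I * n * x)) =
        c n / (Real.sqrt n : ℝ) * W (n * y)) : ∃ A : ℝ, ∀ n, ‖an c n‖ ≤ A := by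
  obtain ⟨B, hB⟩ := h.bd
  obtain ⟨y₀, hy₀, hne⟩ := hne
  have hB0 : 0 ≤ B := (norm_nonneg _).trans (hB (ofComplex 0))
  have hWn : 0 < ‖W y₀‖ := norm_pos_iff.mpr hne
  refine ⟨B / ‖W y₀‖, fun n => ?_⟩
  rcases Nat.eq_zero_or_pos n with rfl | hn
  · rw [an_zero, norm_zero]; positivity
  · have hn0 : (0 : ℝ) < n := by exact_mod_cast hn
    have h1 := hW n hn (y₀ / n) (by positivity)
    rw [mul_div_cancel₀ _ hn0.ne'] at h1
    rw [le_div_iff₀ hWn, ← norm_mul, an, ← h1]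
    have h2 := intervalIntegral.norm_integral_le_of_norm_le_const (a := (0 : ℝ)) (b := 1) (C := B)
      (f := fun x : ℝ => u (ofComplex (x + (y₀ / n : ℝ) * Complex.I)) *
          Complex.exp (-(2 * Real.pi * Complex.I * n * x))) (fun x _ => by
        rw [norm_mul]
        have : ‖Complex.exp (-(2 * Real.pi * Complex.I * n * x))‖ = 1 := by
          rw [Complex.norm_exp]; simp
        rw [this, mul_one]
        exact hB _)
    simpa using h2

/-- the odd twist -/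
theorem twist_odd (h : HM u lam c) (hWh : Wh lam W W')
    (hW : ∀ n : ℕ, 1 ≤ n → ∀ y : ℝ, 0 < y →
        ∫ x in (0 : ℝ)..1, u (ofComplex (x + y * Complex.I)) *
          Complex.exp (-(2 * Real.pi * Complex.I * n * x)) =
        c n / (Real.sqrt n : ℝ) * W (n * y))
    (q : ℕ) [NeZero q] (χ : DirichletCharacter ℂ q) (hp : χ.IsPrimitive) (h2 : χ ^ 2 = 1)
    (ho : χ (-1) = -1) :
    ∃ (L : ℂ → ℂ) (t : ℂ), Differentiable ℂ L ∧ L 0 = 0 ∧ t ≠ 0 ∧
      (∀ w : ℂ, 1 < w.re → HasSum (fun n : ℕ => t * (an c n * χ n) * (n : ℂ) ^ (-w) * mellin W w) (L w)) := by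
  obtain ⟨D, hD0, hD⟩ := hWh.decay
  obtain ⟨A, hA⟩ := an_bound h hWh.ne hW
  set τ := gaussSum χ (ZMod.stdAddChar (N := q)) with hτ
  have hτ0 : τ ≠ 0 := gauss_ne hp
  set f : ℝ → ℂ := fun y => ∑ v : ZMod q, χ v * u (ofComplex (pt v y)) with hf
  have hq := q_pos (q := q)
  have key := core (φ := W) (f := f) (b := fun n => 2 * τ * (an c n * χ n)) (A := 2 * ‖τ‖ * A) (D := D) (c := 1)
    (Q := (q : ℝ) ^ 2) (ε := -1) hWh.contW one_pos (fun y hy => by simpa using hD y hy) (by simp [an_zero])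
    (fun n => by
      rw [norm_mul, norm_mul, norm_mul, Complex.norm_ofNat]
      have h3 : ‖an c n‖ * ‖χ n‖ ≤ A * 1 := mul_le_mul (hA n) (χ.norm_le_one _) (norm_nonneg _)
        ((norm_nonneg _).trans (hA 0))
      calc 2 * ‖τ‖ * (‖an c n‖ * ‖χ n‖) ≤ 2 * ‖τ‖ * (A * 1) := by gcongr
        _ = _ := by ring)
    (fun y hy => by
      have h4 := fun v : ZMod q => (Run7.h488.OM.W2 h ⟨D, hD⟩ hW ((v.val : ℝ) / q) y hy).mul_left (χ v)
      have h5 := hasSum_sum (s := Finset.univ) (fun (v : ZMod q) _ => h4 v)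
      refine (h5.congr_fun ?_ |> fun h => h)
      intro n
      have h6 := sin_sum hp h2 ho n
      rw [← hτ] at h6
      calc 2 * τ * (an c n * χ n) * W (n * y) = an c n * W (n * y) * (2 * (τ * χ n)) := by ring
        _ = an c n * W (n * y) * ∑ v : ZMod q, χ v * (2 * I * Complex.sin (2 * Real.pi * n * (v.val / q))) := by rw [h6]
        _ = _ := by
          rw [Finset.mul_sum]
          refine Finset.sum_congr rfl fun v _ => ?_
          rw [an]; push_cast; ring)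
    (by positivity)
    (fun y hy => by
      simp only [hf]
      rw [sum_move h2 (F := fun v => u (ofComplex (pt v (((q : ℝ) ^ 2)⁻¹ * y⁻¹)))) (G := fun v => u (ofComplex (pt v y))) 1
        (fun v w hvw => by rw [one_mul]; exact move h.oi hvw hy), one_mul, ho])
  obtain ⟨k1, k2, k3⟩ := key
  refine ⟨mellin f, 2 * τ, k1, ?_, by simp [hτ0], fun w hw => ?_⟩
  · have : mellin f 0 = - mellin f 0 := by linear_combination k2
    exact self_eq_neg.mp this
  · exact k3 w hw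

lemma ux_hasSum (h : HM u lam c) (hWh : Wh lam W W')
    (hW : ∀ n : ℕ, 1 ≤ n → ∀ y : ℝ, 0 < y →
        ∫ x in (0 : ℝ)..1, u (ofComplex (x + y * Complex.I)) *
          Complex.exp (-(2 * Real.pi * Complex.I * n * x)) =
        c n / (Real.sqrt n : ℝ) * W (n * y)) (x y : ℝ) (hy : 0 < y) :
    HasSum (fun n : ℕ => an c n * W (n * y) * (2 * I * (2 * Real.pi * n) * Complex.cos (2 * Real.pi * n * x)))
      (Ux u (x + y * I)) := by
  obtain ⟨D, hD0, hD⟩ := hWh.decay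
  obtain ⟨A, hA⟩ := an_bound h hWh.ne hW
  have hA0 : 0 ≤ A := (norm_nonneg _).trans (hA 0)
  set g : ℕ → ℝ → ℂ := fun n x => an c n * W (n * y) * (2 * I * Complex.sin (2 * Real.pi * n * x)) with hg
  set g' : ℕ → ℝ → ℂ := fun n x => an c n * W (n * y) * (2 * I * (2 * Real.pi * n) * Complex.cos (2 * Real.pi * n * x)) with hg'
  have hs : ∀ x : ℝ, HasSum (fun n => g n x) (u (ofComplex (x + y * I))) := fun x =>
    Run7.h488.OM.W2 h ⟨D, hD⟩ hW x y hy
  set r : ℝ := Real.exp (-y) with hr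
  have hr1 : ‖r‖ < 1 := by
    rw [Real.norm_of_nonneg (Real.exp_pos _).le, Real.exp_lt_one_iff]; linarith
  have hu : Summable fun n : ℕ => 4 * Real.pi * A * D * ((n : ℝ) ^ 1 * r ^ n) :=
    (summable_pow_mul_geometric_of_norm_lt_one 1 hr1).mul_left _
  have hd : ∀ n x, HasDerivAt (g n) (g' n x) x := by
    intro n x
    have h1 : HasDerivAt (fun s : ℂ => Complex.sin (2 * Real.pi * n * s))
        (Complex.cos (2 * Real.pi * n * x) * (2 * Real.pi * n)) (x : ℂ) := by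
      have := ((hasDerivAt_id (x : ℂ)).const_mul (2 * Real.pi * n : ℂ)).csin
      simpa using this
    have h2 := (h1.comp_ofReal.const_mul (2 * I)).const_mul (an c n * W (n * y))
    refine h2.congr_deriv ?_
    simp only [hg']; ring
  have hb : ∀ n x, ‖g' n x‖ ≤ 4 * Real.pi * A * D * ((n : ℝ) ^ 1 * r ^ n) := by
    intro n x
    rcases Nat.eq_zero_or_pos n with rfl | hn
    · simp [hg', an_zero]
    · have hn0 : (0 : ℝ) < n := by exact_mod_cast hn
      have h3 : ‖Complex.cos (2 * Real.pi * n * x)‖ ≤ 1 := by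
        rw [show (2 * Real.pi * n * x : ℂ) = ((2 * Real.pi * n * x : ℝ) : ℂ) by push_cast; ring,
          ← Complex.ofReal_cos, Complex.norm_real]
        exact Real.abs_cos_le_one _
      have h4 : ‖W (n * y)‖ ≤ D * r ^ n := by
        refine (hD _ (by positivity)).trans (le_of_eq ?_)
        rw [hr, ← Real.exp_nat_mul]; ring_nf
      have h5 : ‖(2 * I * (2 * Real.pi * n) : ℂ)‖ = 4 * Real.pi * n := by
        rw [norm_mul, norm_mul, norm_mul, norm_mul, Complex.norm_real, Complex.norm_natCast, Complex.norm_I,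
          Complex.norm_ofNat, Real.norm_of_nonneg Real.pi_pos.le]
        ring
      simp only [hg']
      rw [norm_mul, norm_mul, norm_mul, h5]
      calc ‖an c n‖ * ‖W (n * y)‖ * (4 * Real.pi * n * ‖Complex.cos (2 * Real.pi * n * x)‖)
          ≤ A * (D * r ^ n) * (4 * Real.pi * n * 1) := by
            have := hA n
            gcongr
        _ = _ := by ring
  have hder := hasDerivAt_tsum hu hd hb (hs 0).summable x
  have hfun : (fun z : ℝ => ∑' n, g n z) = fun z : ℝ => u (ofComplex (z + y * I)) := by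
    ext z; exact (hs z).tsum_eq
  rw [hfun] at hder
  have hux : Ux u (x + y * I) = ∑' n, g' n x := by
    rw [Ux]
    have h6 : HasDerivAt (fun t : ℝ => u (ofComplex (((x + t : ℝ) : ℂ) + y * I))) (∑' n, g' n x) 0 :=
      HasDerivAt.comp_const_add x 0 (f := fun z : ℝ => u (ofComplex (z + y * I))) (by simpa using hder)
    have h7 : (fun t : ℝ => u (ofComplex (x + y * I + t))) = fun t : ℝ => u (ofComplex (((x + t : ℝ) : ℂ) + y * I)) := by
      ext t; congr 2; push_cast; ring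
    rw [h7]; exact h6.deriv
  rw [hux]
  exact (Summable.of_norm_bounded hu fun n => hb n x).hasSum

/-- the even twist -/
theorem twist_even (h : HM u lam c) (hWh : Wh lam W W')
    (hW : ∀ n : ℕ, 1 ≤ n → ∀ y : ℝ, 0 < y →
        ∫ x in (0 : ℝ)..1, u (ofComplex (x + y * Complex.I)) *
          Complex.exp (-(2 * Real.pi * Complex.I * n * x)) =
        c n / (Real.sqrt n : ℝ) * W (n * y))
    (q : ℕ) [NeZero q] (χ : DirichletCharacter ℂ q) (hp : χ.IsPrimitive) (h2 : χ ^ 2 = 1)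
    (he : χ (-1) = 1) :
    ∃ (L : ℂ → ℂ) (t : ℂ), Differentiable ℂ L ∧ L 0 = 0 ∧ t ≠ 0 ∧
      (∀ w : ℂ, 1 < w.re → HasSum (fun n : ℕ => t * (an c n * χ n) * (n : ℂ) ^ (-w) * mellin W (w + 1)) (L w)) := by
  obtain ⟨D, hD0, hD⟩ := hWh.decay
  obtain ⟨A, hA⟩ := an_bound h hWh.ne hW
  set τ := gaussSum χ (ZMod.stdAddChar (N := q)) with hτ
  have hτ0 : τ ≠ 0 := gauss_ne hp
  set f : ℝ → ℂ := fun y => y * ∑ v : ZMod q, χ v * Ux u (pt v y) with hf
  have hq := q_pos (q := q)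
  have key := core (φ := fun y => (y : ℂ) * W y) (f := f) (b := fun n => 4 * Real.pi * I * τ * (an c n * χ n))
    (A := 4 * Real.pi * ‖τ‖ * A) (D := 2 * D) (c := 1 / 2)
    (Q := (q : ℝ) ^ 2) (ε := -1) (continuous_ofReal.continuousOn.mul hWh.contW) (by norm_num) (fun y hy => by
      rw [norm_mul, Complex.norm_real, Real.norm_of_nonneg hy.le]
      have h3 := hD y hy
      have h4 : y ≤ 2 * Real.exp (1 / 2 * y) := by
        have := Real.add_one_le_exp (1 / 2 * y)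
        linarith
      have h5 : Real.exp (1 / 2 * y) * Real.exp (-y) = Real.exp (-(1 / 2) * y) := by
        rw [← Real.exp_add]; ring_nf
      calc y * ‖W y‖ ≤ (2 * Real.exp (1 / 2 * y)) * (D * Real.exp (-y)) := by gcongr
        _ = 2 * D * (Real.exp (1 / 2 * y) * Real.exp (-y)) := by ring
        _ = _ := by rw [h5])
    (by simp [an_zero])
    (fun n => by
      rw [norm_mul, norm_mul, norm_mul, norm_mul, norm_mul, Complex.norm_ofNat, Complex.norm_real,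
        Real.norm_of_nonneg Real.pi_pos.le, Complex.norm_I, mul_one]
      have h3 : ‖an c n‖ * ‖χ n‖ ≤ A * 1 := mul_le_mul (hA n) (χ.norm_le_one _) (norm_nonneg _)
        ((norm_nonneg _).trans (hA 0))
      calc 4 * Real.pi * ‖τ‖ * (‖an c n‖ * ‖χ n‖) ≤ 4 * Real.pi * ‖τ‖ * (A * 1) := by gcongr
        _ = _ := by ring)
    (fun y hy => by
      have h4 := fun v : ZMod q => (ux_hasSum h hWh hW ((v.val : ℝ) / q) y hy).mul_left (χ v)
      have h5 := (hasSum_sum (s := Finset.univ) (fun (v : ZMod q) _ => h4 v)).mul_left (y : ℂ)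
      refine (h5.congr_fun ?_ |> fun h => h)
      intro n
      have h6 := cos_sum hp h2 he n
      rw [← hτ] at h6
      calc 4 * Real.pi * I * τ * (an c n * χ n) * (((n * y : ℝ) : ℂ) * W (n * y))
          = y * (an c n * W (n * y) * (2 * I * (2 * Real.pi * n)) * (τ * χ n)) := by push_cast; ring
        _ = y * (an c n * W (n * y) * (2 * I * (2 * Real.pi * n)) *
            ∑ v : ZMod q, χ v * Complex.cos (2 * Real.pi * n * (v.val / q))) := by rw [h6]
        _ = _ := by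
          congr 1
          rw [Finset.mul_sum]
          refine Finset.sum_congr rfl fun v _ => ?_
          push_cast; ring)
    (by positivity)
    (fun y hy => by
      simp only [hf]
      rw [sum_move h2 (F := fun v => Ux u (pt v (((q : ℝ) ^ 2)⁻¹ * y⁻¹))) (G := fun v => Ux u (pt v y))
        (-((q : ℂ) ^ 2 * y ^ 2))
        (fun v w hvw => move_x h.oi h.smooth hvw hy), he]
      have hqc : (q : ℂ) ≠ 0 := by exact_mod_cast (NeZero.ne q)
      have hyc : (y : ℂ) ≠ 0 := by exact_mod_cast hy.ne'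
      push_cast
      field_simp)
  obtain ⟨k1, k2, k3⟩ := key
  refine ⟨mellin f, 4 * Real.pi * I * τ, k1, ?_, by simp [hτ0, Real.pi_ne_zero], fun w hw => ?_⟩
  · have : mellin f 0 = - mellin f 0 := by linear_combination k2
    exact self_eq_neg.mp this
  · have h8 : mellin (fun y : ℝ => (y : ℂ) * W y) w = mellin W (w + 1) := by
      rw [← mellin_cpow_smul]
      congr 1; ext t; simp
    have := k3 w hw
    rwa [h8] at this

end

/-- **The twisted L-functions are entire and vanish at the centre.** -/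
theorem twist {u : ℍ → ℂ} {lam : ℂ} {c : ℕ → ℂ} (h : HM u lam c) (q : ℕ) [NeZero q]
    (χ : DirichletCharacter ℂ q) (hp : χ.IsPrimitive) (h2 : χ ^ 2 = 1) :
    ∃ F : ℂ → ℂ, Differentiable ℂ F ∧
      (∀ s : ℂ, 3 / 2 < s.re → HasSum (fun n : ℕ => c n * χ n / (n : ℂ) ^ s) (F s)) ∧
      F (1 / 2) = 0 := by
  obtain ⟨W, W', hne, hbd, hd1, hd2, hW⟩ := Run7.h488.OM.whittaker h
  have hWh : Wh lam W W' := ⟨hne, hbd, hd1, hd2⟩
  obtain ⟨R, hR, hRW⟩ := hWh.entire_inv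
  have hterm : ∀ (s : ℂ), 3 / 2 < s.re → ∀ n : ℕ,
      an c n * χ n * (n : ℂ) ^ (-(s - 1 / 2)) = c n * χ n / (n : ℂ) ^ s := by
    intro s hs n
    rcases Nat.eq_zero_or_pos n with rfl | hn
    · have : s ≠ 0 := by rintro rfl; norm_num at hs
      simp [an_zero, Complex.zero_cpow this]
    · have hn0 : (0 : ℝ) < n := by exact_mod_cast hn
      have hnc : (n : ℂ) ≠ 0 := by exact_mod_cast hn.ne'
      have h1 : ((Real.sqrt n : ℝ) : ℂ) = (n : ℂ) ^ (1 / 2 : ℂ) := by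
        rw [Real.sqrt_eq_rpow, Complex.ofReal_cpow hn0.le]; push_cast; rfl
      rw [an, h1, show -(s - 1 / 2) = 1 / 2 + -s by ring, Complex.cpow_add _ _ hnc, Complex.cpow_neg]
      have h2 : (n : ℂ) ^ (1 / 2 : ℂ) ≠ 0 := by
        rw [Ne, Complex.cpow_eq_zero_iff]; tauto
      field_simp
  have hpar : χ (-1) = 1 ∨ χ (-1) = -1 := by
    have h1 : χ (-1) * χ (-1) = 1 := by rw [← map_mul]; simp
    exact mul_self_eq_one_iff.mp h1
  rcases hpar with he | ho
  · obtain ⟨L, t, hL, hL0, ht, hs⟩ := twist_even h hWh hW q χ hp h2 he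
    refine ⟨fun s => t⁻¹ * (L (s - 1 / 2) * R (s - 1 / 2 + 1)), ?_, fun s hs' => ?_, ?_⟩
    · exact ((hL.comp (by fun_prop)).mul (hR.comp (by fun_prop))).const_mul _
    · have h1 := (hs (s - 1 / 2) (by simp; linarith)).mul_right (R (s - 1 / 2 + 1))
      have h2 := h1.mul_left t⁻¹
      refine (h2.congr_fun ?_ |> fun h => h)
      intro n
      rw [← hterm s hs' n]
      have h3 := hRW (s - 1 / 2 + 1) (by simp; linarith)
      calc an c n * χ n * (n : ℂ) ^ (-(s - 1 / 2)) = (t⁻¹ * t) * (an c n * χ n * (n : ℂ) ^ (-(s - 1 / 2))) *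
            (R (s - 1 / 2 + 1) * mellin W (s - 1 / 2 + 1)) := by rw [h3, inv_mul_cancel₀ ht]; ring
        _ = _ := by ring
    · simp [hL0]
  · obtain ⟨L, t, hL, hL0, ht, hs⟩ := twist_odd h hWh hW q χ hp h2 ho
    refine ⟨fun s => t⁻¹ * (L (s - 1 / 2) * R (s - 1 / 2)), ?_, fun s hs' => ?_, ?_⟩
    · exact ((hL.comp (by fun_prop)).mul (hR.comp (by fun_prop))).const_mul _
    · have h1 := (hs (s - 1 / 2) (by simp; linarith)).mul_right (R (s - 1 / 2))
      have h2 := h1.mul_left t⁻¹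
      refine (h2.congr_fun ?_ |> fun h => h)
      intro n
      rw [← hterm s hs' n]
      have h3 := hRW (s - 1 / 2) (by simp; linarith)
      calc an c n * χ n * (n : ℂ) ^ (-(s - 1 / 2)) = (t⁻¹ * t) * (an c n * χ n * (n : ℂ) ^ (-(s - 1 / 2))) *
            (R (s - 1 / 2) * mellin W (s - 1 / 2)) := by rw [h3, inv_mul_cancel₀ ht]; ring
        _ = _ := by ring
    · simp [hL0]

end Run7.h788.OM
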